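import Mathlib

/-!
# Weakly compact sets: boundedness, closedness, weak sequential compactness
-/

namespace Pool.Agent.Lib.MP_011fc9_an

open Filter Topology Metric Set

variable {X : Type*} [NormedAddCommGroup X] [NormedSpace ℝ X]

/-- Weak convergence of the sequence `x` to `p`. -/
def WeakLim (x : ℕ → X) (p : X) : Prop :=
  ∀ f : X →L[ℝ] ℝ, Tendsto (fun n => f (x n)) atTop (𝓝 (f p))

theorem WeakLim.comp {x : ℕ → X} {p : X} (h : WeakLim x p) {φ : ℕ → ℕ} (hφ : StrictMono φ) :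
    WeakLim (x ∘ φ) p :=
  fun f => (h f).comp hφ.tendsto_atTop

/-- weak lower semicontinuity of the norm. -/
theorem WeakLim.dist_le {x : ℕ → X} {p u : X} (h : WeakLim x p) {r : ℝ}
    (hr : ∀ η > 0, ∃ᶠ n in atTop, dist (x n) u ≤ r + η) : dist p u ≤ r := by
  obtain ⟨f, hf1, hf2⟩ := exists_dual_vector'' ℝ (p - u)
  refine le_of_forall_pos_le_add fun η hη => ?_
  have h1 : Tendsto (fun n => f (x n)) atTop (𝓝 (f p)) := h f
  have h2 : ∀ᶠ n in atTop, f p - η / 2 < f (x n) :=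
    h1.eventually (lt_mem_nhds (by linarith))
  obtain ⟨n, hn1, hn2⟩ := ((hr (η / 2) (by linarith)).and_eventually h2).exists
  have h3 : f (x n) - f u ≤ ‖x n - u‖ := by
    rw [← map_sub]
    calc f (x n - u) ≤ ‖f (x n - u)‖ := le_abs_self _
      _ ≤ ‖f‖ * ‖x n - u‖ := f.le_opNorm _
      _ ≤ 1 * ‖x n - u‖ := by gcongr
      _ = ‖x n - u‖ := one_mul _
  have h4 : f p - f u = ‖p - u‖ := by
    rw [← map_sub, hf2]; simp
  rw [dist_eq_norm] at hn1 ⊢
  linarith

/-- weakly compact sets are norm closed. -/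
theorem isClosed_of_weak {C : Set X} (hC : IsCompact (toWeakSpace ℝ X '' C)) : IsClosed C := by
  have h1 : IsClosed (toWeakSpace ℝ X '' C) := hC.isClosed
  have h2 : C = (toWeakSpaceCLM ℝ X) ⁻¹' (toWeakSpace ℝ X '' C) := by
    ext x
    constructor
    · intro hx; exact ⟨x, hx, rfl⟩
    · rintro ⟨y, hy, hxy⟩
      have : y = x := (toWeakSpace ℝ X).injective hxy
      rwa [← this]
  rw [h2]
  exact h1.preimage (toWeakSpaceCLM ℝ X).continuous

theorem continuous_eval (f : X →L[ℝ] ℝ) :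
    Continuous (fun y : WeakSpace ℝ X => f ((toWeakSpace ℝ X).symm y)) :=
  WeakBilin.eval_continuous (topDualPairing ℝ X).flip f

/-- weakly compact sets are bounded. -/
theorem bounded_of_weak {C : Set X} (hC : IsCompact (toWeakSpace ℝ X '' C)) :
    ∃ B : ℝ, 0 ≤ B ∧ ∀ x ∈ C, ‖x‖ ≤ B := by
  have h1 : ∀ f : StrongDual ℝ X, ∃ K, ∀ c : C,
      ‖(NormedSpace.inclusionInDoubleDual ℝ X (c : X)) f‖ ≤ K := by
    intro f
    have h2 : IsCompact ((fun y : WeakSpace ℝ X => f ((toWeakSpace ℝ X).symm y)) ''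
        (toWeakSpace ℝ X '' C)) := hC.image (continuous_eval f)
    obtain ⟨K, hK⟩ := h2.isBounded.exists_norm_le
    refine ⟨K, fun c => ?_⟩
    rw [NormedSpace.dual_def]
    exact hK _ ⟨toWeakSpace ℝ X c, ⟨c, c.2, rfl⟩, by simp⟩
  obtain ⟨B, hB⟩ := banach_steinhaus h1
  refine ⟨max B 0, le_max_right _ _, fun x hx => ?_⟩
  have h3 := hB ⟨x, hx⟩
  have h4 : ‖NormedSpace.inclusionInDoubleDual ℝ X x‖ = ‖x‖ :=
    (NormedSpace.inclusionInDoubleDualLi ℝ (E := X)).norm_map x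
  simp only at h3
  rw [h4] at h3
  exact h3.trans (le_max_left _ _)

/-- cluster points along ultrafilters. -/
theorem weak_ultra {C : Set X} (hC : IsCompact (toWeakSpace ℝ X '' C)) {x : ℕ → X}
    (hx : ∀ n, x n ∈ C) (𝒰 : Ultrafilter ℕ) :
    ∃ p ∈ C, ∀ f : X →L[ℝ] ℝ, Tendsto (fun n => f (x n)) 𝒰 (𝓝 (f p)) := by
  obtain ⟨q, ⟨p, hp, rfl⟩, hq⟩ := hC.ultrafilter_le_nhds
    (𝒰.map (fun n => toWeakSpace ℝ X (x n))) (by
      rw [le_principal_iff]
      exact Filter.mem_map.mpr (Filter.univ_mem' fun n => ⟨x n, hx n, rfl⟩))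
  refine ⟨p, hp, fun f => ?_⟩
  have h1 : Tendsto (fun n => toWeakSpace ℝ X (x n)) 𝒰 (𝓝 (toWeakSpace ℝ X p)) := hq
  have h2 := ((continuous_eval f).tendsto (toWeakSpace ℝ X p)).comp h1
  simpa [Function.comp_def] using h2

/-- weakly compact sets are weakly sequentially compact. -/
theorem weak_seq {C : Set X} (hC : IsCompact (toWeakSpace ℝ X '' C)) {x : ℕ → X}
    (hx : ∀ n, x n ∈ C) : ∃ p ∈ C, ∃ φ : ℕ → ℕ, StrictMono φ ∧ WeakLim (x ∘ φ) p := by
  classical
  -- the closed span of the sequence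
  set Y : Submodule ℝ X := (Submodule.span ℝ (Set.range x)).topologicalClosure with hY
  have hxY : ∀ n, x n ∈ Y := fun n =>
    Submodule.le_topologicalClosure _ (Submodule.subset_span ⟨n, rfl⟩)
  have hYsep : TopologicalSpace.IsSeparable (Y : Set X) := by
    have h1 : TopologicalSpace.IsSeparable (Set.range x) :=
      (Set.countable_range x).isSeparable
    have h2 : TopologicalSpace.IsSeparable (Submodule.span ℝ (Set.range x) : Set X) := h1.span
    have h3 := h2.closure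
    rwa [hY, Submodule.topologicalClosure_coe]
  obtain ⟨D, hDc, hD⟩ := hYsep
  -- norming functionals
  choose g hg1 hg2 using fun d : X => exists_dual_vector'' ℝ d
  have hsep : ∀ y ∈ Y, (∀ d ∈ D, g d y = 0) → y = 0 := by
    intro y hy h0
    have h1 : y ∈ closure D := hD hy
    by_contra hne
    have hpos : 0 < ‖y‖ := norm_pos_iff.mpr hne
    obtain ⟨d, hd, hdy⟩ := Metric.mem_closure_iff.mp h1 (‖y‖ / 2) (by linarith)
    have h2 : ‖d‖ = g d d := by rw [hg2 d]; simp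
    have h3 : g d (d - y) ≤ ‖d - y‖ := by
      calc g d (d - y) ≤ ‖g d (d - y)‖ := le_abs_self _
        _ ≤ ‖g d‖ * ‖d - y‖ := (g d).le_opNorm _
        _ ≤ 1 * ‖d - y‖ := by gcongr; exact hg1 d
        _ = ‖d - y‖ := one_mul _
    rw [map_sub, h0 d hd, sub_zero, ← h2] at h3
    have h4 : ‖d - y‖ < ‖y‖ / 2 := by rw [← dist_eq_norm, dist_comm]; exact hdy
    have h5 : ‖y‖ ≤ ‖d‖ + ‖d - y‖ := by
      have := norm_sub_norm_le y (y - d)
      have h6 : y - (y - d) = d := by abel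
      rw [h6] at this
      have h7 : ‖y - d‖ = ‖d - y‖ := norm_sub_rev _ _
      linarith
    linarith
  -- diagonal extraction
  obtain ⟨B, hB0, hB⟩ := bounded_of_weak hC
  have hDcount : Countable D := hDc.to_subtype
  have hcomp : IsCompact (Set.pi univ (fun _ : D => Icc (-B) B)) :=
    isCompact_univ_pi fun _ => isCompact_Icc
  obtain ⟨a, -, φ, hφ, ha⟩ := hcomp.tendsto_subseq (x := fun n => fun d : D => g d (x n)) (by
    intro n d _
    have h1 : |g d (x n)| ≤ B := by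
      calc |g d (x n)| = ‖g d (x n)‖ := rfl
        _ ≤ ‖g d‖ * ‖x n‖ := (g d).le_opNorm _
        _ ≤ 1 * ‖x n‖ := by gcongr; exact hg1 d
        _ = ‖x n‖ := one_mul _
        _ ≤ B := hB _ (hx n)
    exact abs_le.mp h1)
  have ha' : ∀ d : D, Tendsto (fun n => g d (x (φ n))) atTop (𝓝 (a d)) := by
    intro d
    exact (continuous_apply d).continuousAt.tendsto.comp ha
  have hx' : ∀ n, (x ∘ φ) n ∈ C := fun n => hx _
  -- membership of limits in Y
  have hmemY : ∀ (𝒰 : Ultrafilter ℕ) (p : X),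
      (∀ f : X →L[ℝ] ℝ, Tendsto (fun n => f ((x ∘ φ) n)) 𝒰 (𝓝 (f p))) → p ∈ Y := by
    intro 𝒰 p hp
    by_contra hpY
    have hYcl : IsClosed (Y : Set X) := Submodule.isClosed_topologicalClosure _
    obtain ⟨f, u, hf1, hf2⟩ := geometric_hahn_banach_closed_point Y.convex hYcl hpY
    have hf0 : ∀ y ∈ Y, f y = 0 := by
      intro y hy
      by_contra hne
      have h1 : ∀ s : ℝ, s * f y < u := by
        intro s
        have := hf1 (s • y) (Y.smul_mem s hy)
        simpa using this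
      have h2 := h1 (u / f y)
      rw [div_mul_cancel₀ _ hne] at h2
      exact lt_irrefl _ h2
    have h3 : Tendsto (fun n => f ((x ∘ φ) n)) 𝒰 (𝓝 0) := by
      have : (fun n => f ((x ∘ φ) n)) = fun _ => (0 : ℝ) := by
        funext n; exact hf0 _ (hxY _)
      rw [this]; exact tendsto_const_nhds
    have h4 : f p = 0 := tendsto_nhds_unique (hp f) h3
    have h5 : (0 : ℝ) < u := by
      have := hf1 0 Y.zero_mem
      simpa using this
    rw [h4] at hf2
    linarith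
  -- the limit
  obtain ⟨p, hpC, hp⟩ := weak_ultra hC hx' (hyperfilter ℕ)
  have hpY := hmemY _ p hp
  have hga : ∀ (𝒰 : Ultrafilter ℕ), (𝒰 : Filter ℕ) ≤ atTop → ∀ p' : X,
      (∀ f : X →L[ℝ] ℝ, Tendsto (fun n => f ((x ∘ φ) n)) 𝒰 (𝓝 (f p'))) →
      ∀ d : D, g d p' = a d := by
    intro 𝒰 h𝒰 p' hp' d
    exact tendsto_nhds_unique (hp' (g d)) ((ha' d).mono_left h𝒰)
  refine ⟨p, hpC, φ, hφ, fun f => ?_⟩
  rw [tendsto_iff_ultrafilter]
  intro 𝒰 h𝒰
  obtain ⟨p', hp'C, hp'⟩ := weak_ultra hC hx' 𝒰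
  have hp'Y := hmemY _ p' hp'
  have hat : ((hyperfilter ℕ : Ultrafilter ℕ) : Filter ℕ) ≤ atTop := by
    rw [← Nat.cofinite_eq_atTop]; exact hyperfilter_le_cofinite
  have heq : p' - p = 0 := by
    apply hsep _ (Y.sub_mem hp'Y hpY)
    intro d hd
    rw [map_sub, hga 𝒰 h𝒰 p' hp' ⟨d, hd⟩, hga _ hat p hp ⟨d, hd⟩, sub_self]
  have : p' = p := sub_eq_zero.mp heq
  rw [← this]
  exact hp' f

end Pool.Agent.Lib.MP_011fc9_an
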