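import Mathlib
import Pool.Agent.Lib.MP_011fc9_an.H57Weak

/-!
# Chains of approximate fixed points of multivalued nonexpansive maps
-/

namespace Pool.Agent.Lib.MP_011fc9_an

open Filter Topology Metric Set

variable {X : Type*} [NormedAddCommGroup X] [NormedSpace ℝ X]

/-- `T` is a nonexpansive map from `C` to the nonempty compact subsets of `C`. -/
structure NEMap (C : Set X) (T : X → Set X) : Prop where
  ne : ∀ x ∈ C, (T x).Nonempty
  cpt : ∀ x ∈ C, IsCompact (T x)
  sub : ∀ x ∈ C, T x ⊆ C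
  lip : ∀ x ∈ C, ∀ y ∈ C, hausdorffDist (T x) (T y) ≤ dist x y

theorem NEMap.near {C : Set X} {T : X → Set X} (h : NEMap C T) {x y v : X} (hx : x ∈ C)
    (hy : y ∈ C) (hv : v ∈ T x) : ∃ v' ∈ T y, dist v v' ≤ dist x y := by
  obtain ⟨v', hv', hd⟩ := (h.cpt y hy).exists_infDist_eq_dist (h.ne y hy) v
  refine ⟨v', hv', ?_⟩
  rw [← hd]
  exact (infDist_le_hausdorffDist_of_mem hv
    (hausdorffEDist_ne_top_of_nonempty_of_bounded (h.ne x hx) (h.ne y hy)
      (h.cpt x hx).isBounded (h.cpt y hy).isBounded)).trans (h.lip x hx y hy)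

/-- The iteration `w (k+1) = (1-ε) v k + ε u`, `v k ∈ T (w k)`. -/
structure Chain (C : Set X) (T : X → Set X) (u : X) (ε : ℝ) (x : X) (w v : ℕ → X) : Prop where
  zero : w 0 = x
  memC : ∀ k, w k ∈ C
  memT : ∀ k, v k ∈ T (w k)
  succ : ∀ k, w (k + 1) = (1 - ε) • v k + ε • u
  step : ∀ k, dist (v k) (v (k + 1)) ≤ dist (w k) (w (k + 1))
  start : dist x (v 0) = infDist x (T x)

theorem exists_chain {C : Set X} (hconv : Convex ℝ C) {T : X → Set X} (h : NEMap C T) {u : X}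
    (hu : u ∈ C) {ε : ℝ} (h0 : 0 ≤ ε) (h1 : ε ≤ 1) {x : X} (hx : x ∈ C) :
    ∃ w v : ℕ → X, Chain C T u ε x w v := by
  classical
  let S := {p : X × X // p.1 ∈ C ∧ p.2 ∈ T p.1}
  have hnext : ∀ p : S, ∃ p' : S, p'.1.1 = (1 - ε) • p.1.2 + ε • u ∧
      dist p.1.2 p'.1.2 ≤ dist p.1.1 p'.1.1 := by
    rintro ⟨⟨a, b⟩, ha, hb⟩
    have hc : (1 - ε) • b + ε • u ∈ C :=
      hconv (h.sub a ha hb) hu (by linarith) h0 (by ring)
    obtain ⟨b', hb', hd⟩ := h.near ha hc hb
    exact ⟨⟨⟨_, b'⟩, hc, hb'⟩, rfl, hd⟩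
  choose nx hn1 hn2 using hnext
  obtain ⟨v0, hv0, hd0⟩ := (h.cpt x hx).exists_infDist_eq_dist (h.ne x hx) x
  let s : ℕ → S := fun k => Nat.rec ⟨⟨x, v0⟩, hx, hv0⟩ (fun _ p => nx p) k
  have hs : ∀ k, s (k + 1) = nx (s k) := fun k => rfl
  refine ⟨fun k => (s k).1.1, fun k => (s k).1.2, rfl, fun k => (s k).2.1,
    fun k => (s k).2.2, fun k => ?_, fun k => ?_, hd0.symm⟩
  · show (s (k + 1)).1.1 = _
    rw [hs, hn1]
  · show dist (s k).1.2 (s (k + 1)).1.2 ≤ dist (s k).1.1 (s (k + 1)).1.1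
    rw [hs]; exact hn2 _

section est

variable {C : Set X} {T : X → Set X} {u : X} {ε : ℝ} {x : X} {w v : ℕ → X}

theorem Chain.d_le (hc : Chain C T u ε x w v) (h0 : 0 < ε) (h1 : ε < 1) {D : ℝ}
    (hD : infDist x (T x) / ε + dist x u ≤ D) (k : ℕ) :
    dist (w k) (w (k + 1)) ≤ (1 - ε) ^ k * (ε * D) := by
  induction k with
  | zero =>
    have e1 : dist (w 0) (w (0 + 1)) ≤ (1 - ε) * dist x (v 0) + ε * dist x u := by
      rw [hc.succ 0, hc.zero, dist_eq_norm, dist_eq_norm, dist_eq_norm]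
      have : x - ((1 - ε) • v 0 + ε • u) = (1 - ε) • (x - v 0) + ε • (x - u) := by
        module
      rw [this]
      refine (norm_add_le _ _).trans ?_
      rw [norm_smul, norm_smul, Real.norm_of_nonneg h0.le, Real.norm_of_nonneg (by linarith)]
    rw [hc.start] at e1
    have e2 : 0 ≤ infDist x (T x) := infDist_nonneg
    have e3 : infDist x (T x) + ε * dist x u ≤ ε * D := by
      have := mul_le_mul_of_nonneg_left hD h0.le
      rw [mul_add, mul_div_cancel₀ _ h0.ne'] at this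
      exact this
    simp only [pow_zero, one_mul]
    nlinarith
  | succ k ih =>
    have e1 : dist (w (k + 1)) (w (k + 1 + 1)) = (1 - ε) * dist (v k) (v (k + 1)) := by
      rw [hc.succ (k + 1), hc.succ k, dist_eq_norm, dist_eq_norm]
      have : (1 - ε) • v k + ε • u - ((1 - ε) • v (k + 1) + ε • u)
          = (1 - ε) • (v k - v (k + 1)) := by module
      rw [this, norm_smul, Real.norm_of_nonneg (by linarith)]
    rw [e1, pow_succ]
    have e2 := (hc.step k).trans ih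
    nlinarith

theorem Chain.dist_le (hc : Chain C T u ε x w v) (h0 : 0 < ε) (h1 : ε < 1) {D : ℝ}
    (hD : infDist x (T x) / ε + dist x u ≤ D) {j k : ℕ} (hjk : j ≤ k) :
    dist (w j) (w k) ≤ ((1 - ε) ^ j - (1 - ε) ^ k) * D := by
  induction k, hjk using Nat.le_induction with
  | base => simp
  | succ k hk ih =>
    refine (dist_triangle _ (w k) _).trans ?_
    have e1 := hc.d_le h0 h1 hD k
    rw [pow_succ]
    nlinarith

theorem Chain.afp (hc : Chain C T u ε x w v) (h : NEMap C T) (hu : u ∈ C) (h0 : 0 < ε)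
    (h1 : ε < 1) {D B : ℝ}
    (hD : infDist x (T x) / ε + dist x u ≤ D) (hB : ∀ a ∈ C, ∀ b ∈ C, dist a b ≤ B) (k : ℕ) :
    infDist (w k) (T (w k)) ≤ ε * (D + B) := by
  have e1 := hc.d_le h0 h1 hD k
  have hD0 : 0 ≤ D := by
    refine le_trans ?_ hD
    have := infDist_nonneg (x := x) (s := T x)
    positivity
  have e2 : (1 - ε) ^ k * (ε * D) ≤ ε * D := by
    have : (1 - ε) ^ k ≤ 1 := pow_le_one₀ (by linarith) (by linarith)
    have h3 : 0 ≤ ε * D := by positivity
    nlinarith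
  have e3 : dist (w (k + 1)) (v k) ≤ ε * B := by
    rw [hc.succ k, dist_eq_norm]
    have : (1 - ε) • v k + ε • u - v k = ε • (u - v k) := by module
    rw [this, norm_smul, Real.norm_of_nonneg h0.le, ← dist_eq_norm]
    gcongr
    exact hB _ hu _ (h.sub _ (hc.memC k) (hc.memT k))
  calc infDist (w k) (T (w k)) ≤ dist (w k) (v k) := infDist_le_dist_of_mem (hc.memT k)
    _ ≤ dist (w k) (w (k + 1)) + dist (w (k + 1)) (v k) := dist_triangle _ _ _
    _ ≤ ε * D + ε * B := by linarith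
    _ = ε * (D + B) := by ring

end est

/-- choice of the contraction factor -/
theorem exists_factor {t : ℝ} (h0 : 0 < t) (h1 : t < 1) {e : ℝ} (he : 0 < e) :
    ∃ (K : ℕ) (ε : ℝ), 0 < ε ∧ ε < 1 ∧ ε ≤ e ∧ (1 - ε) ^ K = 1 - t := by
  -- e' = min e 1/2
  set e' : ℝ := min e (1 / 2) with he'
  have he'0 : 0 < e' := lt_min he (by norm_num)
  have he'1 : e' ≤ 1 / 2 := min_le_right _ _
  obtain ⟨K, hK⟩ := exists_pow_lt_of_lt_one (show 0 < 1 - t by linarith)
    (show 1 - e' < 1 by linarith)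
  have hK0 : K ≠ 0 := by
    rintro rfl
    simp at hK; linarith
  set q : ℝ := (1 - t) ^ ((K : ℝ)⁻¹) with hq
  have hq0 : 0 < q := Real.rpow_pos_of_pos (by linarith) _
  have hqK : q ^ K = 1 - t := Real.rpow_inv_natCast_pow (by linarith) hK0
  have hq1 : q < 1 := by
    by_contra hcon
    push Not at hcon
    have := one_le_pow₀ (n := K) hcon
    rw [hqK] at this; linarith
  have hqe : 1 - e' ≤ q := by
    by_contra hcon
    push Not at hcon
    have h3 : q ^ K ≤ (1 - e') ^ K := pow_le_pow_left₀ hq0.le hcon.le K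
    rw [hqK] at h3
    linarith
  refine ⟨K, 1 - q, by linarith, by linarith, ?_, ?_⟩
  · have := min_le_left e (1 / 2)
    linarith
  · rw [sub_sub_cancel]; exact hqK

/-- existence of approximate fixed points. -/
theorem exists_afp {C : Set X} (hconv : Convex ℝ C) (hne : C.Nonempty) {T : X → Set X}
    (h : NEMap C T) {B : ℝ} (hB : ∀ a ∈ C, ∀ b ∈ C, dist a b ≤ B) {η : ℝ} (hη : 0 < η) :
    ∃ x ∈ C, infDist x (T x) ≤ η := by
  obtain ⟨u, hu⟩ := hne
  have hB0 : 0 ≤ B := dist_nonneg.trans (hB u hu u hu)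
  set ε : ℝ := min (1 / 2) (η / (2 * (2 * B + 1))) with hε
  have hε0 : 0 < ε := lt_min (by norm_num) (by positivity)
  have hε1 : ε < 1 := (min_le_left _ _).trans_lt (by norm_num)
  obtain ⟨w, v, hc⟩ := exists_chain hconv h hu hε0.le hε1.le hu
  -- w k → approximate fixed point for large k
  obtain ⟨K, hK⟩ := exists_pow_lt_of_lt_one (show 0 < η / (2 * (B + 1)) by positivity)
    (show 1 - ε < 1 by linarith)
  have hD : infDist u (T u) / ε + dist u u ≤ B / ε := by
    rw [dist_self, add_zero]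
    gcongr
    obtain ⟨y, hy⟩ := h.ne u hu
    exact (infDist_le_dist_of_mem hy).trans (hB _ hu _ (h.sub u hu hy))
  have e1 := hc.d_le hε0 hε1 hD K
  rw [mul_div_cancel₀ _ hε0.ne'] at e1
  have e3 : dist (w (K + 1)) (v K) ≤ ε * B := by
    rw [hc.succ K, dist_eq_norm]
    have : (1 - ε) • v K + ε • u - v K = ε • (u - v K) := by module
    rw [this, norm_smul, Real.norm_of_nonneg hε0.le, ← dist_eq_norm]
    gcongr
    exact hB _ hu _ (h.sub _ (hc.memC K) (hc.memT K))
  refine ⟨w K, hc.memC K, ?_⟩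
  have e4 : (1 - ε) ^ K * B ≤ η / 2 := by
    have h2 : η / (2 * (B + 1)) * B ≤ η / 2 := by
      rw [div_mul_eq_mul_div, div_le_div_iff₀ (by positivity) (by norm_num)]
      nlinarith
    calc (1 - ε) ^ K * B ≤ η / (2 * (B + 1)) * B := by gcongr
      _ ≤ η / 2 := h2
  have e5 : ε * B ≤ η / 2 := by
    have h2 : ε ≤ η / (2 * (2 * B + 1)) := min_le_right _ _
    have h3 : η / (2 * (2 * B + 1)) * B ≤ η / 2 := by
      rw [div_mul_eq_mul_div, div_le_div_iff₀ (by positivity) (by norm_num)]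
      nlinarith
    calc ε * B ≤ η / (2 * (2 * B + 1)) * B := by gcongr
      _ ≤ η / 2 := h3
  calc infDist (w K) (T (w K)) ≤ dist (w K) (v K) := infDist_le_dist_of_mem (hc.memT K)
    _ ≤ dist (w K) (w (K + 1)) + dist (w (K + 1)) (v K) := dist_triangle _ _ _
    _ ≤ η := by linarith

end Pool.Agent.Lib.MP_011fc9_an
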