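import Mathlib
import Pool.Agent.Lib.MP_011fc9_an.H57Chain

/-!
# The core lemma: points between an approximate fixed point sequence and a fixed point of `C`
-/

namespace Pool.Agent.Lib.MP_011fc9_an

open Filter Topology Metric Set

variable {X : Type*} [NormedAddCommGroup X] [NormedSpace ℝ X]

theorem center_step {C : Set X} {T : X → Set X} (h : NEMap C T) {u : X} {ε : ℝ}
    (h0 : 0 < ε) (h1 : ε < 1) {x : ℕ → X} {w v : ℕ → ℕ → X}
    (hc : ∀ n, Chain C T u ε (x n) (w n) (v n)) (𝒰 : Ultrafilter ℕ) {k : ℕ} {c : X} (hcC : c ∈ C)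
    {R : ℝ} (hR : ∀ η > 0, ∀ᶠ n in (𝒰 : Filter ℕ), dist (w n k) c ≤ R + η) :
    ∃ y ∈ T c, ∀ η > 0, ∀ᶠ n in (𝒰 : Filter ℕ),
      dist (w n (k + 1)) ((1 - ε) • y + ε • u) ≤ (1 - ε) * R + η := by
  choose y hyT hyd using fun n => h.near ((hc n).memC k) hcC ((hc n).memT k)
  obtain ⟨z, hz, hzl⟩ := (h.cpt c hcC).ultrafilter_le_nhds (𝒰.map y) (by
    rw [le_principal_iff]
    exact Filter.mem_map.mpr (Filter.univ_mem' hyT))
  have hlim : Tendsto y 𝒰 (𝓝 z) := hzl
  refine ⟨z, hz, fun η hη => ?_⟩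
  filter_upwards [hR (η / 2) (by linarith), Metric.tendsto_nhds.mp hlim (η / 2) (by linarith)]
    with n hn1 hn2
  rw [(hc n).succ k, dist_eq_norm]
  have : (1 - ε) • v n k + ε • u - ((1 - ε) • z + ε • u) = (1 - ε) • (v n k - z) := by module
  rw [this, norm_smul, Real.norm_of_nonneg (by linarith), ← dist_eq_norm]
  have h3 : dist (v n k) z ≤ R + η := by
    have := dist_triangle (v n k) (y n) z
    have := hyd n
    linarith
  have h4 : (1 - ε) * dist (v n k) z ≤ (1 - ε) * (R + η) :=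
    mul_le_mul_of_nonneg_left h3 (by linarith)
  nlinarith

theorem exists_center {C : Set X} (hconv : Convex ℝ C) {T : X → Set X} (h : NEMap C T) {u : X}
    (hu : u ∈ C) {ε : ℝ}
    (h0 : 0 < ε) (h1 : ε < 1) {x : ℕ → X} {w v : ℕ → ℕ → X}
    (hc : ∀ n, Chain C T u ε (x n) (w n) (v n)) (𝒰 : Ultrafilter ℕ)
    {R : ℝ} (hR : ∀ η > 0, ∀ᶠ n in (𝒰 : Filter ℕ), dist (x n) u ≤ R + η) (k : ℕ) :
    ∃ c ∈ C, ∀ η > 0, ∀ᶠ n in (𝒰 : Filter ℕ), dist (w n k) c ≤ (1 - ε) ^ k * R + η := by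
  induction k with
  | zero =>
    refine ⟨u, hu, fun η hη => ?_⟩
    filter_upwards [hR η hη] with n hn
    rw [(hc n).zero]; simpa using hn
  | succ k ih =>
    obtain ⟨c, hcC, hcR⟩ := ih
    obtain ⟨y, hy, hyR⟩ := center_step h h0 h1 hc 𝒰 hcC hcR
    refine ⟨(1 - ε) • y + ε • u, hconv (h.sub c hcC hy) hu (by linarith) h0.le (by ring),
      fun η hη => ?_⟩
    filter_upwards [hyR η hη] with n hn
    rw [pow_succ, mul_comm ((1 - ε) ^ k) (1 - ε), mul_assoc]
    exact hn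

/-- **Core lemma.** Let `x n` be approximate fixed points of `T` within distance about `ρ` of a
point `u` of `C`. Then for each `t` there are arbitrarily good approximate fixed points `w n`
at distance about `t ρ` from (a subsequence of) `x n` and about `(1 - t) ρ` from one single
approximate fixed point `c`. -/
theorem core {C : Set X} (hconv : Convex ℝ C) {T : X → Set X} (h : NEMap C T)
    {B : ℝ} (hB : ∀ a ∈ C, ∀ b ∈ C, dist a b ≤ B)
    {x : ℕ → X} (hx : ∀ n, x n ∈ C) (hafp : Tendsto (fun n => infDist (x n) (T (x n))) atTop (𝓝 0))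
    {u : X} (hu : u ∈ C) {ρ : ℝ} (hρ : 0 < ρ)
    (hxu : ∀ η > 0, ∀ᶠ n in atTop, dist (x n) u ≤ ρ + η)
    {t : ℝ} (ht0 : 0 < t) (ht1 : t < 1) {η₀ : ℝ} (hη₀ : 0 < η₀) :
    ∃ c ∈ C, infDist c (T c) ≤ η₀ ∧ ∃ φ : ℕ → ℕ, StrictMono φ ∧ ∃ w : ℕ → X,
      (∀ n, w n ∈ C) ∧ (∀ n, infDist (w n) (T (w n)) ≤ η₀) ∧
      (∀ η > 0, ∀ᶠ n in atTop, dist (w n) (x (φ n)) ≤ t * ρ + η) ∧
      (∀ η > 0, ∀ᶠ n in atTop, dist (w n) c ≤ (1 - t) * ρ + η) := by
  have hB0 : 0 ≤ B := dist_nonneg.trans (hB u hu u hu)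
  obtain ⟨K, ε, hε0, hε1, hεe, hεK⟩ := exists_factor ht0 ht1
    (show 0 < η₀ / (4 * (ρ + 1 + B)) by positivity)
  have hεB : ε * (ρ + 1 + B) ≤ η₀ / 4 := by
    have := mul_le_mul_of_nonneg_right hεe (show 0 ≤ ρ + 1 + B by positivity)
    have h2 : η₀ / (4 * (ρ + 1 + B)) * (ρ + 1 + B) = η₀ / 4 := by field_simp
    linarith
  choose w v hc using fun n => exists_chain hconv h hu hε0.le hε1.le (hx n)
  set D : ℕ → ℝ := fun n => infDist (x n) (T (x n)) / ε + dist (x n) u with hDdef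
  have hD0 : ∀ n, 0 ≤ D n := fun n => by
    have := infDist_nonneg (x := x n) (s := T (x n))
    simp only [hDdef]; positivity
  -- D n is eventually at most ρ + η
  have hDev : ∀ η > 0, ∀ᶠ n in atTop, D n ≤ ρ + η := by
    intro η hη
    have h2 : ∀ᶠ n in atTop, infDist (x n) (T (x n)) < ε * (η / 2) :=
      hafp.eventually (gt_mem_nhds (by positivity))
    filter_upwards [h2, hxu (η / 2) (by linarith)] with n hn1 hn2
    have : infDist (x n) (T (x n)) / ε < η / 2 := by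
      rw [div_lt_iff₀ hε0]; linarith
    simp only [hDdef]; linarith
  set 𝒰 : Ultrafilter ℕ := hyperfilter ℕ with h𝒰
  have hat : (𝒰 : Filter ℕ) ≤ atTop := by
    rw [← Nat.cofinite_eq_atTop]; exact hyperfilter_le_cofinite
  have hR : ∀ η > 0, ∀ᶠ n in (𝒰 : Filter ℕ), dist (x n) u ≤ ρ + η := fun η hη => hat (hxu η hη)
  -- large time m
  obtain ⟨m₀, hm₀⟩ := exists_pow_lt_of_lt_one (show 0 < η₀ / (8 * (3 * ρ + 1)) by positivity)
    (show 1 - ε < 1 by linarith)
  set m : ℕ := max K m₀ with hm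
  have hmK : K ≤ m := le_max_left _ _
  have hqm : (1 - ε) ^ m ≤ η₀ / (8 * (3 * ρ + 1)) :=
    (pow_le_pow_of_le_one (by linarith) (by linarith) (le_max_right K m₀)).trans hm₀.le
  have hqm0 : 0 ≤ (1 - ε) ^ m := pow_nonneg (by linarith) _
  obtain ⟨c, hcC, hcR⟩ := exists_center hconv h hu hε0 hε1 hc 𝒰 hR m
  obtain ⟨y, hy, hyR⟩ := center_step h hε0 hε1 hc 𝒰 hcC hcR
  -- c is an approximate fixed point
  have hcafp : infDist c (T c) ≤ η₀ := by
    obtain ⟨n, ⟨hn1, hn2⟩, hn3⟩ := (((hcR (η₀ / 16) (by linarith)).and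
      (hyR (η₀ / 16) (by linarith))).and (hat (hDev 1 (by norm_num)))).exists
    set c' := (1 - ε) • y + ε • u with hc'
    have e1 := (hc n).d_le hε0 hε1 (le_refl (D n)) m
    have e2 : dist c' y ≤ ε * B := by
      rw [hc', dist_eq_norm]
      have : (1 - ε) • y + ε • u - y = ε • (u - y) := by module
      rw [this, norm_smul, Real.norm_of_nonneg hε0.le, ← dist_eq_norm]
      gcongr
      exact hB _ hu _ (h.sub _ hcC hy)
    have e3 : dist c c' ≤ dist (w n m) c + dist (w n m) (w n (m + 1)) + dist (w n (m + 1)) c' := by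
      have a1 := dist_triangle c (w n m) c'
      have a2 := dist_triangle (w n m) (w n (m + 1)) c'
      rw [dist_comm c (w n m)] at a1
      linarith
    have e4 : (1 - ε) ^ m * ρ ≤ η₀ / 24 := by
      have : η₀ / (8 * (3 * ρ + 1)) * ρ ≤ η₀ / 24 := by
        rw [div_mul_eq_mul_div, div_le_div_iff₀ (by positivity) (by norm_num)]
        nlinarith
      calc (1 - ε) ^ m * ρ ≤ η₀ / (8 * (3 * ρ + 1)) * ρ := by gcongr
        _ ≤ η₀ / 24 := this
    have e5 : (1 - ε) * ((1 - ε) ^ m * ρ) ≤ η₀ / 24 := by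
      have : 0 ≤ (1 - ε) ^ m * ρ := by positivity
      nlinarith
    have e6 : (1 - ε) ^ m * (ε * D n) ≤ η₀ / 4 := by
      have a1 : (1 - ε) ^ m ≤ 1 := pow_le_one₀ (by linarith) (by linarith)
      have a2 : ε * D n ≤ ε * (ρ + 1 + B) := by
        have : D n ≤ ρ + 1 + B := by linarith
        gcongr
      have a3 : 0 ≤ ε * D n := mul_nonneg hε0.le (hD0 n)
      nlinarith
    have e7 : ε * B ≤ η₀ / 4 := by
      have : ε * B ≤ ε * (ρ + 1 + B) := by
        have : B ≤ ρ + 1 + B := by linarith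
        gcongr
      linarith
    calc infDist c (T c) ≤ dist c y := infDist_le_dist_of_mem hy
      _ ≤ dist c c' + dist c' y := dist_triangle _ _ _
      _ ≤ η₀ := by linarith
  -- the points w n K
  have key : ∀ η > 0, ∀ᶠ n in (𝒰 : Filter ℕ), dist (w n K) c ≤ (1 - t) * ρ + η := by
    intro η hη
    filter_upwards [hcR (η / 2) (by linarith), hat (hDev (η / 2) (by linarith))] with n hn1 hn2
    have e1 := (hc n).dist_le hε0 hε1 (le_refl (D n)) hmK
    have e2 := dist_triangle (w n K) (w n m) c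
    have e3 : ((1 - ε) ^ K - (1 - ε) ^ m) * D n ≤ ((1 - ε) ^ K - (1 - ε) ^ m) * (ρ + η / 2) := by
      have : (1 - ε) ^ m ≤ (1 - ε) ^ K := pow_le_pow_of_le_one (by linarith) (by linarith) hmK
      exact mul_le_mul_of_nonneg_left hn2 (by linarith)
    have e4 : ((1 - ε) ^ K - (1 - ε) ^ m) * (η / 2) ≤ η / 2 := by
      have : (1 - ε) ^ K ≤ 1 := pow_le_one₀ (by linarith) (by linarith)
      nlinarith
    rw [← hεK]
    nlinarith
  have hafpK : ∀ᶠ n in (𝒰 : Filter ℕ), infDist (w n K) (T (w n K)) ≤ η₀ := by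
    filter_upwards [hat (hDev 1 (by norm_num))] with n hn
    have := (hc n).afp h hu hε0 hε1 (hn : D n ≤ ρ + 1) hB K
    linarith
  have hfreq : ∀ j : ℕ, ∃ᶠ n in atTop, dist (w n K) c ≤ (1 - t) * ρ + 1 / ((j : ℝ) + 1) ∧
      infDist (w n K) (T (w n K)) ≤ η₀ := by
    intro j
    have h1 : ∃ᶠ n in (𝒰 : Filter ℕ), dist (w n K) c ≤ (1 - t) * ρ + 1 / ((j : ℝ) + 1) ∧
      infDist (w n K) (T (w n K)) ≤ η₀ :=
      ((key (1 / ((j : ℝ) + 1)) (by positivity)).and hafpK).frequently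
    exact h1.filter_mono hat
  obtain ⟨φ, hφ, hφP⟩ := extraction_forall_of_frequently hfreq
  refine ⟨c, hcC, hcafp, φ, hφ, fun n => w (φ n) K, fun n => (hc _).memC K, fun n => (hφP n).2,
    fun η hη => ?_, fun η hη => ?_⟩
  · filter_upwards [hφ.tendsto_atTop.eventually (hDev η hη)] with n hn
    have e1 := (hc (φ n)).dist_le hε0 hε1 (le_refl (D (φ n))) (Nat.zero_le K)
    rw [(hc (φ n)).zero, pow_zero, hεK, sub_sub_cancel, dist_comm] at e1
    have e2 : t * D (φ n) ≤ t * (ρ + η) := mul_le_mul_of_nonneg_left hn ht0.le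
    nlinarith
  · have h2 : Tendsto (fun j : ℕ => 1 / ((j : ℝ) + 1)) atTop (𝓝 0) :=
      tendsto_one_div_add_atTop_nhds_zero_nat
    filter_upwards [h2.eventually (gt_mem_nhds hη)] with n hn
    have := (hφP n).1
    linarith

end Pool.Agent.Lib.MP_011fc9_an
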