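import Mathlib
import Pool.Agent.Lib.MP_011fc9_an.H57Core

/-!
# The fixed point theorem
-/

namespace Pool.Agent.Lib.MP_011fc9_an

open Filter Topology Metric Set

variable {X : Type*} [NormedAddCommGroup X] [NormedSpace ℝ X]

/-- There are approximate fixed points of `T` arbitrarily close to the ball `B(u, ρ)`. -/
def Near (C : Set X) (T : X → Set X) (u : X) (ρ : ℝ) : Prop :=
  ∀ η > 0, ∃ x ∈ C, infDist x (T x) ≤ η ∧ dist x u ≤ ρ + η

/-- If the radius can always be reduced by a fixed factor, then there is a fixed point. -/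
theorem fixed_of_reduce [CompleteSpace X] {C : Set X} (hcl : IsClosed C) (hconv : Convex ℝ C)
    (hne : C.Nonempty) {T : X → Set X} (h : NEMap C T) {B : ℝ} (hB : ∀ a ∈ C, ∀ b ∈ C, dist a b ≤ B)
    {lam M : ℝ} (hl0 : 0 < lam) (hl1 : lam < 1)
    (hred : ∀ u ∈ C, ∀ ρ > 0, Near C T u ρ → ∃ p ∈ C, dist p u ≤ M * ρ ∧ Near C T p (lam * ρ)) :
    ∃ x ∈ C, x ∈ T x := by
  classical
  obtain ⟨u0, hu0⟩ := hne
  have hB0 : 0 ≤ B := dist_nonneg.trans (hB u0 hu0 u0 hu0)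
  set R : ℝ := B + 1 with hR
  have hR0 : 0 < R := by linarith
  let S := {p : X × ℝ // p.1 ∈ C ∧ 0 < p.2 ∧ Near C T p.1 p.2}
  have hnext : ∀ s : S, ∃ s' : S, dist s'.1.1 s.1.1 ≤ M * s.1.2 ∧ s'.1.2 = lam * s.1.2 := by
    rintro ⟨⟨a, r⟩, ha, hr, hN⟩
    obtain ⟨p, hp, hd, hN'⟩ := hred a ha r hr hN
    exact ⟨⟨⟨p, lam * r⟩, hp, mul_pos hl0 hr, hN'⟩, hd, rfl⟩
  choose nx hn1 hn2 using hnext
  have hstart : Near C T u0 R := by
    intro η hη
    obtain ⟨x, hx, hxa⟩ := exists_afp hconv ⟨u0, hu0⟩ h hB hη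
    refine ⟨x, hx, hxa, ?_⟩
    have := hB x hx u0 hu0
    linarith
  let s : ℕ → S := fun k => Nat.rec ⟨⟨u0, R⟩, hu0, hR0, hstart⟩ (fun _ p => nx p) k
  have hs : ∀ k, s (k + 1) = nx (s k) := fun k => rfl
  have hr : ∀ k, (s k).1.2 = lam ^ k * R := by
    intro k
    induction k with
    | zero => simp [s]
    | succ k ih => rw [hs, hn2, ih, pow_succ]; ring
  have hd : ∀ k, dist (s k).1.1 (s (k + 1)).1.1 ≤ (M * R) * lam ^ k := by
    intro k
    rw [hs, dist_comm]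
    refine (hn1 _).trans ?_
    rw [hr k]
    apply le_of_eq; ring
  have hcau : CauchySeq (fun k => (s k).1.1) := cauchySeq_of_le_geometric lam (M * R) hl1 hd
  obtain ⟨u, hu⟩ := cauchySeq_tendsto_of_complete hcau
  have huC : u ∈ C := hcl.mem_of_tendsto hu (Eventually.of_forall fun k => (s k).2.1)
  refine ⟨u, huC, ?_⟩
  rw [(h.cpt u huC).isClosed.mem_iff_infDist_zero (h.ne u huC)]
  refine le_antisymm ?_ infDist_nonneg
  refine le_of_forall_pos_le_add fun η hη => ?_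
  have e1 : ∀ᶠ k in atTop, dist (s k).1.1 u < η / 16 :=
    Metric.tendsto_nhds.mp hu _ (by linarith)
  have e2 : Tendsto (fun k => lam ^ k * R) atTop (𝓝 0) := by
    simpa using (tendsto_pow_atTop_nhds_zero_of_lt_one hl0.le hl1).mul_const R
  have e3 : ∀ᶠ k in atTop, lam ^ k * R < η / 16 := e2.eventually (gt_mem_nhds (by linarith))
  obtain ⟨k, hk1, hk2⟩ := (e1.and e3).exists
  obtain ⟨x, hx, hxa, hxd⟩ := (s k).2.2.2 (η / 16) (by linarith)
  rw [hr k] at hxd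
  have hxu : dist x u ≤ 3 * (η / 16) := by
    have := dist_triangle x (s k).1.1 u
    linarith
  obtain ⟨y, hy, hyd⟩ := (h.cpt x hx).exists_infDist_eq_dist (h.ne x hx) x
  obtain ⟨z, hz, hzd⟩ := h.near hx huC hy
  calc infDist u (T u) ≤ dist u z := infDist_le_dist_of_mem hz
    _ ≤ dist u x + dist x y + dist y z := by
      have a1 := dist_triangle u x z
      have a2 := dist_triangle x y z
      linarith
    _ ≤ 0 + η := by
      rw [dist_comm u x, ← hyd]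
      linarith

/-- Sequences of approximate fixed points from `Near`. -/
theorem Near.seq {C : Set X} {T : X → Set X} {u : X} {ρ : ℝ} (hN : Near C T u ρ) :
    ∃ x : ℕ → X, (∀ n, x n ∈ C) ∧ Tendsto (fun n => infDist (x n) (T (x n))) atTop (𝓝 0) ∧
      ∀ η > 0, ∀ᶠ n in atTop, dist (x n) u ≤ ρ + η := by
  have hpos : ∀ n : ℕ, (0 : ℝ) < 1 / ((n : ℝ) + 1) := fun n => by positivity
  choose x hxC hxa hxd using fun n : ℕ => hN (1 / ((n : ℝ) + 1)) (hpos n)
  have h2 : Tendsto (fun j : ℕ => 1 / ((j : ℝ) + 1)) atTop (𝓝 0) :=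
    tendsto_one_div_add_atTop_nhds_zero_nat
  refine ⟨x, hxC, squeeze_zero (fun _ => infDist_nonneg) hxa h2, fun η hη => ?_⟩
  filter_upwards [h2.eventually (gt_mem_nhds hη)] with n hn
  have := hxd n
  linarith

/-- The geometric property (K) of a normed space: for some `t` and `lam`, whenever `x n`
converges weakly to `p`, `w n` converges weakly, and asymptotically `‖w n - x n‖ ≤ t ρ`,
`‖w n - c‖ ≤ (1 - t) ρ`, one of the points `x n`, `c`, `w n` is at distance at most `lam ρ` from `p`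
(up to small errors, for infinitely many `n`). -/
def PropK (X : Type*) [NormedAddCommGroup X] [NormedSpace ℝ X] (t lam : ℝ) : Prop :=
  ∀ (ρ : ℝ) (x w : ℕ → X) (p v c : X), 0 < ρ → WeakLim x p → WeakLim w v →
    (∀ η > 0, ∀ᶠ n in atTop, dist (w n) (x n) ≤ t * ρ + η) →
    (∀ η > 0, ∀ᶠ n in atTop, dist (w n) c ≤ (1 - t) * ρ + η) →
    (∀ η > 0, ∃ᶠ n in atTop, dist (x n) p ≤ lam * ρ + η) ∨ dist c p ≤ lam * ρ ∨
    (∀ η > 0, ∃ᶠ n in atTop, dist (w n) p ≤ lam * ρ + η)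

/-- **Main theorem.** -/
theorem main_of_propK [CompleteSpace X] {t lam : ℝ} (ht0 : 0 < t) (ht1 : t < 1) (hl1 : lam < 1)
    (hK : PropK X t lam) {C : Set X} (hne : C.Nonempty) (hconv : Convex ℝ C)
    (hC : IsCompact (toWeakSpace ℝ X '' C)) {T : X → Set X} (h : NEMap C T) :
    ∃ x ∈ C, x ∈ T x := by
  obtain ⟨B₀, hB₀, hB₀'⟩ := bounded_of_weak hC
  have hB : ∀ a ∈ C, ∀ b ∈ C, dist a b ≤ 2 * B₀ := by
    intro a ha b hb
    rw [dist_eq_norm]
    have := norm_sub_le a b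
    have := hB₀' a ha
    have := hB₀' b hb
    linarith
  set l : ℝ := max lam (1 / 2) with hl
  have hl0' : 0 < l := lt_of_lt_of_le (by norm_num) (le_max_right _ _)
  have hl1' : l < 1 := max_lt hl1 (by norm_num)
  refine fixed_of_reduce (isClosed_of_weak hC) hconv hne h hB (M := 1) hl0' hl1' ?_
  intro u hu ρ hρ hN
  obtain ⟨x₀, hx₀C, hx₀a, hx₀d⟩ := hN.seq
  obtain ⟨p, hp, ψ, hψ, hw⟩ := weak_seq hC hx₀C
  set x : ℕ → X := x₀ ∘ ψ with hxdef
  have hxC : ∀ n, x n ∈ C := fun n => hx₀C _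
  have hxa : Tendsto (fun n => infDist (x n) (T (x n))) atTop (𝓝 0) :=
    hx₀a.comp hψ.tendsto_atTop
  have hxd : ∀ η > 0, ∀ᶠ n in atTop, dist (x n) u ≤ ρ + η := fun η hη =>
    hψ.tendsto_atTop.eventually (hx₀d η hη)
  refine ⟨p, hp, ?_, ?_⟩
  · rw [one_mul]
    exact hw.dist_le fun η hη => (hxd η hη).frequently
  · intro η hη
    have hlρ : lam * ρ ≤ l * ρ := mul_le_mul_of_nonneg_right (le_max_left _ _) hρ.le
    obtain ⟨c, hcC, hca, φ, hφ, w, hwC, hwa, hwx, hwc⟩ :=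
      core hconv h hB hxC hxa hu hρ hxd ht0 ht1 hη
    obtain ⟨v, hv, θ, hθ, hwv⟩ := weak_seq hC hwC
    have hx2 : WeakLim (x ∘ φ ∘ θ) p := (hw.comp hφ).comp hθ
    rcases hK ρ (x ∘ φ ∘ θ) (w ∘ θ) p v c hρ hx2 hwv
      (fun η' hη' => hθ.tendsto_atTop.eventually (hwx η' hη'))
      (fun η' hη' => hθ.tendsto_atTop.eventually (hwc η' hη')) with h1 | h1 | h1
    · have h2 : ∀ᶠ n in atTop, infDist ((x ∘ φ ∘ θ) n) (T ((x ∘ φ ∘ θ) n)) < η := by
        have := (hxa.comp hφ.tendsto_atTop).comp hθ.tendsto_atTop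
        exact this.eventually (gt_mem_nhds hη)
      obtain ⟨n, hn1, hn2⟩ := ((h1 η hη).and_eventually h2).exists
      exact ⟨_, hxC _, hn2.le, hn1.trans (by linarith)⟩
    · exact ⟨c, hcC, hca, by linarith⟩
    · obtain ⟨n, hn⟩ := (h1 η hη).exists
      exact ⟨_, hwC _, hwa _, hn.trans (by linarith)⟩

end Pool.Agent.Lib.MP_011fc9_an
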