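import Mathlib
import Pool.Agent.Lib.MP_011fc9_an.H57Main

/-!
# Classes of Banach spaces with property (K)
-/

namespace Pool.Agent.Lib.MP_011fc9_an

open Filter Topology Metric Set

variable {X : Type*} [NormedAddCommGroup X] [NormedSpace ℝ X]

theorem WeakLim.sub {x y : ℕ → X} {p q : X} (hx : WeakLim x p) (hy : WeakLim y q) :
    WeakLim (fun n => x n - y n) (p - q) := fun f => by
  simpa using (hx f).sub (hy f)

theorem WeakLim.const (p : X) : WeakLim (fun _ => p) p := fun _ => tendsto_const_nhds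

theorem WeakLim.smul {x : ℕ → X} {p : X} (hx : WeakLim x p) (a : ℝ) :
    WeakLim (fun n => a • x n) (a • p) := fun f => by
  simpa using (hx f).const_mul a

/-- weakly orthogonal Banach lattices with Riesz angle `α < 2`, and their almost isometric
subspaces. -/
theorem propK_lattice {Y : Type*} [NormedAddCommGroup Y] [Lattice Y] [HasSolidNorm Y]
    [IsOrderedAddMonoid Y] [NormedSpace ℝ Y] (J : X →L[ℝ] Y) {m M α : ℝ} (hm : 0 < m) (hM : 0 ≤ M)
    (hα : 0 ≤ α) (hJ1 : ∀ x, m * ‖x‖ ≤ ‖J x‖) (hJ2 : ∀ x, ‖J x‖ ≤ M * ‖x‖)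
    (hangle : ∀ a b : Y, ‖|a| ⊔ |b|‖ ≤ α * max ‖a‖ ‖b‖)
    (horth : ∀ h : ℕ → X, WeakLim h 0 → ∀ d : X,
      Tendsto (fun n => ‖|J (h n)| ⊓ |J d|‖) atTop (𝓝 0)) :
    PropK X (1 / 2) (α * M / (2 * m)) := by
  intro ρ x w p v c hρ hx hw hwx hwc
  refine Or.inr (Or.inr fun η hη => ?_)
  -- choose the tolerance
  set e : ℝ := m * η / (2 * (α * M + 1)) with he
  have hαM : 0 ≤ α * M := mul_nonneg hα hM
  have he0 : 0 < e := by positivity
  have hh : WeakLim (fun n => x n - p) 0 := by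
    have := hx.sub (WeakLim.const p)
    simpa using this
  have horth' := horth _ hh (c - p)
  have hsmall : ∀ᶠ n in atTop, ‖|J (x n - p)| ⊓ |J (c - p)|‖ < m * η / 2 :=
    horth'.eventually (gt_mem_nhds (by positivity))
  refine Eventually.frequently ?_
  filter_upwards [hwx e he0, hwc e he0, hsmall] with n h1 h2 h3
  set a : Y := J (w n - p) with ha
  set h : Y := J (x n - p) with hh'
  set d : Y := J (c - p) with hd
  have k1 : |a| ≤ (|a - h| ⊔ |a - d|) + (|h| ⊓ |d|) := by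
    rw [add_inf]
    refine le_inf ?_ ?_
    · calc |a| = |(a - h) + h| := by rw [sub_add_cancel]
        _ ≤ |a - h| + |h| := abs_add_le _ _
        _ ≤ _ := by gcongr; exact le_sup_left
    · calc |a| = |(a - d) + d| := by rw [sub_add_cancel]
        _ ≤ |a - d| + |d| := abs_add_le _ _
        _ ≤ _ := by gcongr; exact le_sup_right
  have k2 : ‖a‖ ≤ ‖(|a - h| ⊔ |a - d|) + (|h| ⊓ |d|)‖ := by
    apply HasSolidNorm.solid
    exact k1.trans (le_abs_self _)
  have k3 : a - h = J (w n - x n) := by rw [ha, hh', ← map_sub]; congr 1; abel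
  have k4 : a - d = J (w n - c) := by rw [ha, hd, ← map_sub]; congr 1; abel
  have k5 : ‖a - h‖ ≤ M * (ρ / 2 + e) := by
    rw [k3]
    refine (hJ2 _).trans ?_
    gcongr
    rw [← dist_eq_norm]; linarith
  have k6 : ‖a - d‖ ≤ M * (ρ / 2 + e) := by
    rw [k4]
    refine (hJ2 _).trans ?_
    gcongr
    rw [← dist_eq_norm]; linarith
  have k7 : ‖|a - h| ⊔ |a - d|‖ ≤ α * (M * (ρ / 2 + e)) := by
    refine (hangle _ _).trans ?_
    gcongr
    exact max_le k5 k6
  have k8 : m * ‖w n - p‖ ≤ α * (M * (ρ / 2 + e)) + m * η / 2 := by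
    calc m * ‖w n - p‖ ≤ ‖a‖ := hJ1 _
      _ ≤ _ := k2.trans ((norm_add_le _ _).trans (add_le_add k7 h3.le))
  have k9 : α * (M * e) ≤ m * η / 2 := by
    have : α * (M * e) = (α * M) * (m * η) / (2 * (α * M + 1)) := by
      rw [he]; ring
    rw [this, div_le_div_iff₀ (by positivity) (by norm_num)]
    nlinarith [mul_pos hm hη]
  rw [dist_eq_norm]
  have k10 : α * M / (2 * m) * ρ + η = (α * M * ρ / 2 + m * η) / m := by
    field_simp
  rw [k10, le_div_iff₀ hm]
  nlinarith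

/-- `R(a, X) ≤ R`: bound for the coefficient of Dominguez Benavides. -/
def RBound (X : Type*) [NormedAddCommGroup X] [NormedSpace ℝ X] (a R : ℝ) : Prop :=
  ∀ (h : ℕ → X) (z : X), WeakLim h 0 →
    (∀ η > 0, ∀ᶠ m in atTop, ∀ᶠ n in atTop, ‖h n - h m‖ ≤ 1 + η) → ‖z‖ ≤ a →
    ∀ η > 0, ∃ᶠ n in atTop, ‖h n + z‖ ≤ R + η

theorem propK_coefficient {a R : ℝ} (ha : 0 < a) (hR : RBound X a R) :
    PropK X (2 * a / (1 + 2 * a)) (2 * R / (1 + 2 * a)) := by
  intro ρ x w p v c hρ hx hw hwx hwc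
  refine Or.inr (Or.inr fun η hη => ?_)
  have hden : 0 < 1 + 2 * a := by linarith
  set s : ℝ := 2 * ρ / (1 + 2 * a) with hs
  have hs0 : 0 < s := by positivity
  have h1t : 1 - 2 * a / (1 + 2 * a) = 1 / (1 + 2 * a) := by field_simp; ring
  have hh : WeakLim (fun n => s⁻¹ • (w n - v)) 0 := by
    have := (hw.sub (WeakLim.const v)).smul s⁻¹
    simpa using this
  have hvp : ‖v - p‖ ≤ s * a := by
    have h2 := (hw.sub hx).dist_le (u := 0) (r := 2 * a / (1 + 2 * a) * ρ) (fun η' hη' => by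
      refine Eventually.frequently ?_
      filter_upwards [hwx η' hη'] with n hn
      rwa [dist_zero_right, ← dist_eq_norm])
    rw [dist_zero_right] at h2
    calc ‖v - p‖ ≤ 2 * a / (1 + 2 * a) * ρ := h2
      _ = s * a := by rw [hs]; ring
  have hz : ‖s⁻¹ • (v - p)‖ ≤ a := by
    rw [norm_smul, norm_inv, Real.norm_of_nonneg hs0.le, inv_mul_le_iff₀ hs0]
    exact hvp
  have hD : ∀ η > 0, ∀ᶠ m in atTop, ∀ᶠ n in atTop,
      ‖s⁻¹ • (w n - v) - s⁻¹ • (w m - v)‖ ≤ 1 + η := by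
    intro η' hη'
    have hev := hwc (s * η' / 2) (by positivity)
    filter_upwards [hev] with m hm
    filter_upwards [hev] with n hn
    have e1 : s⁻¹ • (w n - v) - s⁻¹ • (w m - v) = s⁻¹ • (w n - w m) := by
      rw [← smul_sub]; congr 1; abel
    rw [e1, norm_smul, norm_inv, Real.norm_of_nonneg hs0.le, inv_mul_le_iff₀ hs0, ← dist_eq_norm]
    have e2 := dist_triangle_right (w n) (w m) c
    have e3 : (1 - 2 * a / (1 + 2 * a)) * ρ = s / 2 := by rw [h1t, hs]; ring
    rw [e3] at hm hn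
    nlinarith
  refine (hR _ _ hh hD hz (η / s) (by positivity)).mono fun n hn => ?_
  have e1 : s⁻¹ • (w n - v) + s⁻¹ • (v - p) = s⁻¹ • (w n - p) := by
    rw [← smul_add]; congr 1; abel
  rw [e1, norm_smul, norm_inv, Real.norm_of_nonneg hs0.le, inv_mul_le_iff₀ hs0,
    ← dist_eq_norm] at hn
  calc dist (w n) p ≤ s * (R + η / s) := hn
    _ = 2 * R / (1 + 2 * a) * ρ + η := by
      rw [mul_add, mul_div_cancel₀ _ hs0.ne', hs]; ring

end Pool.Agent.Lib.MP_011fc9_an
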