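import Mathlib
import Pool.Agent.Lib.MP_011fc9_an.H57Classes

/-!
# The space `c₀(Γ)` satisfies the hypotheses of the lattice theorem
-/

namespace Pool.Agent.Lib.MP_011fc9_an

open Filter Topology Metric Set
open scoped BoundedContinuousFunction ZeroAtInfty

variable {Γ : Type*} [TopologicalSpace Γ] [DiscreteTopology Γ]

/-- the inclusion of `c₀(Γ)` into the Banach lattice of bounded functions on `Γ` -/
noncomputable def c0incl (Γ : Type*) [TopologicalSpace Γ] :
    C₀(Γ, ℝ) →L[ℝ] (Γ →ᵇ ℝ) :=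
  LinearMap.mkContinuous
    { toFun := fun f => f.toBCF
      map_add' := fun f g => by ext; rfl
      map_smul' := fun a f => by ext; rfl } 1 (fun f => by
        rw [one_mul]; exact (ZeroAtInftyContinuousMap.norm_toBCF_eq_norm (f := f)).le)

theorem c0incl_apply (f : C₀(Γ, ℝ)) (x : Γ) : c0incl Γ f x = f x := rfl

theorem norm_c0incl (f : C₀(Γ, ℝ)) : ‖c0incl Γ f‖ = ‖f‖ :=
  ZeroAtInftyContinuousMap.norm_toBCF_eq_norm (f := f)

theorem bcf_angle (a b : Γ →ᵇ ℝ) : ‖|a| ⊔ |b|‖ ≤ 1 * max ‖a‖ ‖b‖ := by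
  rw [one_mul]
  refine (BoundedContinuousFunction.norm_le (by positivity)).mpr fun x => ?_
  have e : (|a| ⊔ |b|) x = |a x| ⊔ |b x| := rfl
  rw [e, Real.norm_of_nonneg (le_sup_of_le_left (abs_nonneg _))]
  exact max_le_max (a.norm_coe_le_norm x) (b.norm_coe_le_norm x)

theorem c0_orth (h : ℕ → C₀(Γ, ℝ)) (hh : WeakLim h 0) (d : C₀(Γ, ℝ)) :
    Tendsto (fun n => ‖|c0incl Γ (h n)| ⊓ |c0incl Γ d|‖) atTop (𝓝 0) := by
  rw [Metric.tendsto_atTop']
  intro ε hε
  -- the finite set where `d` is large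
  have hfin : {x | ε / 2 ≤ |d x|}.Finite := by
    have h1 : ∀ᶠ x in cocompact Γ, dist (d x) 0 < ε / 2 :=
      Metric.tendsto_nhds.mp d.zero_at_infty' (ε / 2) (by linarith)
    rw [cocompact_eq_cofinite] at h1
    have h2 := Filter.eventually_cofinite.mp h1
    refine h2.subset fun x hx => ?_
    intro hcon
    rw [dist_zero_right, Real.norm_eq_abs] at hcon
    exact absurd hx (not_le.mpr hcon)
  have hpt : ∀ x, Tendsto (fun n => h n x) atTop (𝓝 0) := by
    intro x
    let ev : C₀(Γ, ℝ) →L[ℝ] ℝ := (BoundedContinuousFunction.evalCLM ℝ x).comp (c0incl Γ)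
    have h2 := hh ev
    rw [map_zero] at h2
    exact h2
  have hev : ∀ᶠ n in atTop, ∀ x ∈ {x | ε / 2 ≤ |d x|}, |h n x| < ε / 2 := by
    rw [hfin.eventually_all]
    intro x _
    have := Metric.tendsto_nhds.mp (hpt x) (ε / 2) (by linarith)
    filter_upwards [this] with n hn
    simpa [Real.dist_eq] using hn
  obtain ⟨N, hN⟩ := eventually_atTop.mp hev
  refine ⟨N, fun n hn => ?_⟩
  rw [dist_zero_right, norm_norm]
  have hle : ‖|c0incl Γ (h n)| ⊓ |c0incl Γ d|‖ ≤ ε / 2 := by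
    refine (BoundedContinuousFunction.norm_le (by linarith)).mpr fun x => ?_
    have e : (|c0incl Γ (h n)| ⊓ |c0incl Γ d|) x = |h n x| ⊓ |d x| := rfl
    rw [e, Real.norm_of_nonneg (le_inf (abs_nonneg _) (abs_nonneg _))]
    by_cases hx : ε / 2 ≤ |d x|
    · exact inf_le_left.trans (hN n hn.le x hx).le
    · exact inf_le_right.trans (not_le.mp hx).le
  linarith

/-- `c₀(Γ)` has property (K). -/
theorem propK_c0 : PropK C₀(Γ, ℝ) (1 / 2) (1 * 1 / (2 * 1)) :=
  propK_lattice (c0incl Γ) one_pos zero_le_one zero_le_one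
    (fun x => by rw [one_mul]; exact (norm_c0incl x).ge)
    (fun x => by rw [one_mul]; exact (norm_c0incl x).le)
    bcf_angle c0_orth

end Pool.Agent.Lib.MP_011fc9_an
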