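import Mathlib
import Pool.Agent.Lib.MP_011fc9_an.H57Main

/-!
# Several intermediate points on one chain
-/

namespace Pool.Agent.Lib.MP_011fc9_an

open Filter Topology Metric Set

variable {X : Type*} [NormedAddCommGroup X] [NormedSpace ℝ X]

/-- **Core lemma, version with several points.** -/
theorem core_multi {C : Set X} (hconv : Convex ℝ C) {T : X → Set X} (h : NEMap C T)
    {B : ℝ} (hB : ∀ a ∈ C, ∀ b ∈ C, dist a b ≤ B)
    {x : ℕ → X} (hx : ∀ n, x n ∈ C) (hafp : Tendsto (fun n => infDist (x n) (T (x n))) atTop (𝓝 0))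
    {u : X} (hu : u ∈ C) {ρ : ℝ} (hρ : 0 < ρ)
    (hxu : ∀ η > 0, ∀ᶠ n in atTop, dist (x n) u ≤ ρ + η)
    {κ : ℝ} (hκ0 : 0 < κ) (hκ1 : κ < 1) (J : ℕ) {η₀ : ℝ} (hη₀ : 0 < η₀) :
    ∃ c ∈ C, infDist c (T c) ≤ η₀ ∧ ∃ φ : ℕ → ℕ, StrictMono φ ∧ ∃ w : ℕ → ℕ → X,
      (∀ j n, w j n ∈ C) ∧ (∀ j ≤ J, ∀ n, infDist (w j n) (T (w j n)) ≤ η₀) ∧
      (∀ j ≤ J, ∀ η > 0, ∀ᶠ n in atTop, dist (w j n) (x (φ n)) ≤ (1 - κ ^ j) * ρ + η) ∧
      (∀ j ≤ J, ∀ η > 0, ∀ᶠ n in atTop, dist (w j n) c ≤ κ ^ j * ρ + η) := by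
  have hB0 : 0 ≤ B := dist_nonneg.trans (hB u hu u hu)
  obtain ⟨K, ε, hε0, hε1, hεe, hεK⟩ := exists_factor (t := 1 - κ) (by linarith) (by linarith)
    (show 0 < η₀ / (4 * (ρ + 1 + B)) by positivity)
  rw [sub_sub_cancel] at hεK
  have hεB : ε * (ρ + 1 + B) ≤ η₀ / 4 := by
    have := mul_le_mul_of_nonneg_right hεe (show 0 ≤ ρ + 1 + B by positivity)
    have h2 : η₀ / (4 * (ρ + 1 + B)) * (ρ + 1 + B) = η₀ / 4 := by field_simp
    linarith
  have hpw : ∀ j : ℕ, (1 - ε) ^ (K * j) = κ ^ j := fun j => by rw [pow_mul, hεK]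
  choose w v hc using fun n => exists_chain hconv h hu hε0.le hε1.le (hx n)
  set D : ℕ → ℝ := fun n => infDist (x n) (T (x n)) / ε + dist (x n) u with hDdef
  have hD0 : ∀ n, 0 ≤ D n := fun n => by
    have := infDist_nonneg (x := x n) (s := T (x n))
    simp only [hDdef]; positivity
  -- D n is eventually at most ρ + η
  have hDev : ∀ η > 0, ∀ᶠ n in atTop, D n ≤ ρ + η := by
    intro η hη
    have h2 : ∀ᶠ n in atTop, infDist (x n) (T (x n)) < ε * (η / 2) :=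
      hafp.eventually (gt_mem_nhds (by positivity))
    filter_upwards [h2, hxu (η / 2) (by linarith)] with n hn1 hn2
    have : infDist (x n) (T (x n)) / ε < η / 2 := by
      rw [div_lt_iff₀ hε0]; linarith
    simp only [hDdef]; linarith
  set 𝒰 : Ultrafilter ℕ := hyperfilter ℕ with h𝒰
  have hat : (𝒰 : Filter ℕ) ≤ atTop := by
    rw [← Nat.cofinite_eq_atTop]; exact hyperfilter_le_cofinite
  have hR : ∀ η > 0, ∀ᶠ n in (𝒰 : Filter ℕ), dist (x n) u ≤ ρ + η := fun η hη => hat (hxu η hη)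
  -- large time m
  obtain ⟨m₀, hm₀⟩ := exists_pow_lt_of_lt_one (show 0 < η₀ / (8 * (3 * ρ + 1)) by positivity)
    (show 1 - ε < 1 by linarith)
  set m : ℕ := max (K * J) m₀ with hm
  have hmK : ∀ j ≤ J, K * j ≤ m := fun j hj => (Nat.mul_le_mul_left K hj).trans (le_max_left _ _)
  have hqm : (1 - ε) ^ m ≤ η₀ / (8 * (3 * ρ + 1)) :=
    (pow_le_pow_of_le_one (by linarith) (by linarith) (le_max_right (K * J) m₀)).trans hm₀.le
  have hqm0 : 0 ≤ (1 - ε) ^ m := pow_nonneg (by linarith) _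
  obtain ⟨c, hcC, hcR⟩ := exists_center hconv h hu hε0 hε1 hc 𝒰 hR m
  obtain ⟨y, hy, hyR⟩ := center_step h hε0 hε1 hc 𝒰 hcC hcR
  -- c is an approximate fixed point
  have hcafp : infDist c (T c) ≤ η₀ := by
    obtain ⟨n, ⟨hn1, hn2⟩, hn3⟩ := (((hcR (η₀ / 16) (by linarith)).and
      (hyR (η₀ / 16) (by linarith))).and (hat (hDev 1 (by norm_num)))).exists
    set c' := (1 - ε) • y + ε • u with hc'
    have e1 := (hc n).d_le hε0 hε1 (le_refl (D n)) m
    have e2 : dist c' y ≤ ε * B := by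
      rw [hc', dist_eq_norm]
      have : (1 - ε) • y + ε • u - y = ε • (u - y) := by module
      rw [this, norm_smul, Real.norm_of_nonneg hε0.le, ← dist_eq_norm]
      gcongr
      exact hB _ hu _ (h.sub _ hcC hy)
    have e3 : dist c c' ≤ dist (w n m) c + dist (w n m) (w n (m + 1)) + dist (w n (m + 1)) c' := by
      have a1 := dist_triangle c (w n m) c'
      have a2 := dist_triangle (w n m) (w n (m + 1)) c'
      rw [dist_comm c (w n m)] at a1
      linarith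
    have e4 : (1 - ε) ^ m * ρ ≤ η₀ / 24 := by
      have : η₀ / (8 * (3 * ρ + 1)) * ρ ≤ η₀ / 24 := by
        rw [div_mul_eq_mul_div, div_le_div_iff₀ (by positivity) (by norm_num)]
        nlinarith
      calc (1 - ε) ^ m * ρ ≤ η₀ / (8 * (3 * ρ + 1)) * ρ := by gcongr
        _ ≤ η₀ / 24 := this
    have e5 : (1 - ε) * ((1 - ε) ^ m * ρ) ≤ η₀ / 24 := by
      have : 0 ≤ (1 - ε) ^ m * ρ := by positivity
      nlinarith
    have e6 : (1 - ε) ^ m * (ε * D n) ≤ η₀ / 4 := by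
      have a1 : (1 - ε) ^ m ≤ 1 := pow_le_one₀ (by linarith) (by linarith)
      have a2 : ε * D n ≤ ε * (ρ + 1 + B) := by
        have : D n ≤ ρ + 1 + B := by linarith
        gcongr
      have a3 : 0 ≤ ε * D n := mul_nonneg hε0.le (hD0 n)
      nlinarith
    have e7 : ε * B ≤ η₀ / 4 := by
      have : ε * B ≤ ε * (ρ + 1 + B) := by
        have : B ≤ ρ + 1 + B := by linarith
        gcongr
      linarith
    calc infDist c (T c) ≤ dist c y := infDist_le_dist_of_mem hy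
      _ ≤ dist c c' + dist c' y := dist_triangle _ _ _
      _ ≤ η₀ := by linarith
  -- the points w n (K * j)
  have key : ∀ j ≤ J, ∀ η > 0, ∀ᶠ n in (𝒰 : Filter ℕ), dist (w n (K * j)) c ≤ κ ^ j * ρ + η := by
    intro j hj η hη
    filter_upwards [hcR (η / 2) (by linarith), hat (hDev (η / 2) (by linarith))] with n hn1 hn2
    have e1 := (hc n).dist_le hε0 hε1 (le_refl (D n)) (hmK j hj)
    have e2 := dist_triangle (w n (K * j)) (w n m) c
    have e3 : ((1 - ε) ^ (K * j) - (1 - ε) ^ m) * D n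
        ≤ ((1 - ε) ^ (K * j) - (1 - ε) ^ m) * (ρ + η / 2) := by
      have : (1 - ε) ^ m ≤ (1 - ε) ^ (K * j) :=
        pow_le_pow_of_le_one (by linarith) (by linarith) (hmK j hj)
      exact mul_le_mul_of_nonneg_left hn2 (by linarith)
    have e4 : ((1 - ε) ^ (K * j) - (1 - ε) ^ m) * (η / 2) ≤ η / 2 := by
      have : (1 - ε) ^ (K * j) ≤ 1 := pow_le_one₀ (by linarith) (by linarith)
      nlinarith
    rw [← hpw]
    nlinarith
  have hafpK : ∀ᶠ n in (𝒰 : Filter ℕ), ∀ k, infDist (w n k) (T (w n k)) ≤ η₀ := by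
    filter_upwards [hat (hDev 1 (by norm_num))] with n hn
    intro k
    have := (hc n).afp h hu hε0 hε1 (hn : D n ≤ ρ + 1) hB k
    linarith
  have hfreq : ∀ i : ℕ, ∃ᶠ n in atTop, (∀ j ≤ J, dist (w n (K * j)) c ≤ κ ^ j * ρ
      + 1 / ((i : ℝ) + 1)) ∧ ∀ k, infDist (w n k) (T (w n k)) ≤ η₀ := by
    intro i
    have h0 : ∀ᶠ n in (𝒰 : Filter ℕ), ∀ j ≤ J, dist (w n (K * j)) c ≤ κ ^ j * ρ
        + 1 / ((i : ℝ) + 1) := by
      have := (Set.finite_Iic J).eventually_all (l := (𝒰 : Filter ℕ))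
        (p := fun (j : ℕ) (n : ℕ) => dist (w n (K * j)) c ≤ κ ^ j * ρ + 1 / ((i : ℝ) + 1))
      exact this.mpr fun j hj => key j hj _ (by positivity)
    have h1 := (h0.and hafpK).frequently
    exact h1.filter_mono hat
  obtain ⟨φ, hφ, hφP⟩ := extraction_forall_of_frequently hfreq
  refine ⟨c, hcC, hcafp, φ, hφ, fun j n => w (φ n) (K * j), fun j n => (hc _).memC _,
    fun j _ n => (hφP n).2 _, fun j hj η hη => ?_, fun j hj η hη => ?_⟩
  · filter_upwards [hφ.tendsto_atTop.eventually (hDev η hη)] with n hn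
    have e1 := (hc (φ n)).dist_le hε0 hε1 (le_refl (D (φ n))) (Nat.zero_le (K * j))
    rw [(hc (φ n)).zero, pow_zero, hpw, dist_comm] at e1
    have hκj0 : 0 ≤ κ ^ j := pow_nonneg hκ0.le j
    have hκj1 : κ ^ j ≤ 1 := pow_le_one₀ hκ0.le hκ1.le
    have e2 : (1 - κ ^ j) * D (φ n) ≤ (1 - κ ^ j) * (ρ + η) :=
      mul_le_mul_of_nonneg_left hn (by linarith)
    nlinarith
  · have h2 : Tendsto (fun i : ℕ => 1 / ((i : ℝ) + 1)) atTop (𝓝 0) :=
      tendsto_one_div_add_atTop_nhds_zero_nat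
    filter_upwards [h2.eventually (gt_mem_nhds hη)] with n hn
    have := (hφP n).1 j hj
    linarith

/-- The geometric property of a set used below. -/
def PropJ (C : Set X) (κ : ℝ) (J : ℕ) (lam : ℝ) : Prop :=
  ∀ (ρ : ℝ) (x : ℕ → X) (w : ℕ → ℕ → X) (p c : X), 0 < ρ → (∀ n, x n ∈ C) →
    (∀ j n, w j n ∈ C) → p ∈ C → c ∈ C → WeakLim x p →
    (∀ j ≤ J, ∀ η > 0, ∀ᶠ n in atTop, dist (w j n) (x n) ≤ (1 - κ ^ j) * ρ + η) →
    (∀ j ≤ J, ∀ η > 0, ∀ᶠ n in atTop, dist (w j n) c ≤ κ ^ j * ρ + η) →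
    dist c p ≤ lam * ρ ∨ ∃ j ≤ J, ∀ η > 0, ∃ᶠ n in atTop, dist (w j n) p ≤ lam * ρ + η

/-- **Main theorem, second version.** -/
theorem main_of_propJ [CompleteSpace X] {κ lam : ℝ} (hκ0 : 0 < κ) (hκ1 : κ < 1) {J : ℕ}
    (hl1 : lam < 1) {C : Set X} (hK : PropJ C κ J lam) (hne : C.Nonempty) (hconv : Convex ℝ C)
    (hC : IsCompact (toWeakSpace ℝ X '' C)) {T : X → Set X} (h : NEMap C T) :
    ∃ x ∈ C, x ∈ T x := by
  obtain ⟨B₀, hB₀, hB₀'⟩ := bounded_of_weak hC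
  have hB : ∀ a ∈ C, ∀ b ∈ C, dist a b ≤ 2 * B₀ := by
    intro a ha b hb
    rw [dist_eq_norm]
    have := norm_sub_le a b
    have := hB₀' a ha
    have := hB₀' b hb
    linarith
  set l : ℝ := max lam (1 / 2) with hl
  have hl0' : 0 < l := lt_of_lt_of_le (by norm_num) (le_max_right _ _)
  have hl1' : l < 1 := max_lt hl1 (by norm_num)
  refine fixed_of_reduce (isClosed_of_weak hC) hconv hne h hB (M := 1) hl0' hl1' ?_
  intro u hu ρ hρ hN
  obtain ⟨x₀, hx₀C, hx₀a, hx₀d⟩ := hN.seq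
  obtain ⟨p, hp, ψ, hψ, hw⟩ := weak_seq hC hx₀C
  set x : ℕ → X := x₀ ∘ ψ with hxdef
  have hxC : ∀ n, x n ∈ C := fun n => hx₀C _
  have hxa : Tendsto (fun n => infDist (x n) (T (x n))) atTop (𝓝 0) :=
    hx₀a.comp hψ.tendsto_atTop
  have hxd : ∀ η > 0, ∀ᶠ n in atTop, dist (x n) u ≤ ρ + η := fun η hη =>
    hψ.tendsto_atTop.eventually (hx₀d η hη)
  refine ⟨p, hp, ?_, ?_⟩
  · rw [one_mul]
    exact hw.dist_le fun η hη => (hxd η hη).frequently
  · intro η hη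
    have hlρ : lam * ρ ≤ l * ρ := mul_le_mul_of_nonneg_right (le_max_left _ _) hρ.le
    obtain ⟨c, hcC, hca, φ, hφ, w, hwC, hwa, hwx, hwc⟩ :=
      core_multi hconv h hB hxC hxa hu hρ hxd hκ0 hκ1 J hη
    rcases hK ρ (x ∘ φ) w p c hρ (fun n => hxC _) hwC hp hcC (hw.comp hφ) hwx hwc with
      h1 | ⟨j, hj, h1⟩
    · exact ⟨c, hcC, hca, by linarith⟩
    · obtain ⟨n, hn⟩ := (h1 η hη).exists
      exact ⟨_, hwC _ _, hwa j hj _, hn.trans (by linarith)⟩

end Pool.Agent.Lib.MP_011fc9_an
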