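import Mathlib
import Pool.Agent.Lib.MP_011fc9_an.H57Multi

/-!
# Weakly compact convex sets in `L¹` whose differences are not concentrated
-/

namespace Pool.Agent.Lib.MP_011fc9_an

open Filter Topology MeasureTheory Set

theorem pointwise_ineq (w x c p K : ℝ) (hK : 0 ≤ K) :
    |w - p| ≤ |w - c| + 2 * |w - x| - |p - c|
      - 2 * ((x - p) * (if |p - c| < K then 0 else if c ≤ p then 1 else -1))
      + 2 * (if K < |w - c| then |w - c| else 0) + 2 * (if |p - c| < K then |p - c| else 0) := by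
  have t1 : |w - p| ≤ |w - c| + |p - c| := by
    have := abs_sub_le w c p
    rwa [abs_sub_comm c p] at this
  have t2 := abs_nonneg (w - x)
  have t3 := abs_nonneg (w - c)
  split_ifs with h1 h2 h3 h4 h5
  · linarith
  · linarith
  · -- far, `c ≤ p`, `K < |w - c|`
    have e1 : |p - c| = p - c := abs_of_nonneg (by linarith)
    have e2 := le_abs_self (w - c)
    have e3 := neg_abs_le (w - x)
    rw [e1] at t1 ⊢
    nlinarith
  · -- far, `c ≤ p`, `|w - c| ≤ K`
    have e1 : |p - c| = p - c := abs_of_nonneg (by linarith)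
    rw [e1] at t1 h1 ⊢
    push Not at h1 h4
    have e5 : w - p ≤ 0 := by
      have := le_abs_self (w - c)
      linarith
    rw [abs_of_nonpos e5]
    have e3 := neg_abs_le (w - x)
    have e2 := neg_abs_le (w - c)
    rcases le_total 0 (w - c) with h6 | h6
    · rw [abs_of_nonneg h6]; linarith
    · rw [abs_of_nonpos h6] at *
      linarith
  · have e1 : |p - c| = c - p := by rw [abs_of_nonpos (by linarith)]; ring
    have e2 := neg_abs_le (w - c)
    have e3 := le_abs_self (w - x)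
    rw [e1] at t1 ⊢
    nlinarith
  · have e1 : |p - c| = c - p := by rw [abs_of_nonpos (by linarith)]; ring
    rw [e1] at t1 h1 ⊢
    push Not at h1 h5
    have e5 : 0 ≤ w - p := by
      have := neg_abs_le (w - c)
      linarith
    rw [abs_of_nonneg e5]
    have e3 := le_abs_self (w - x)
    have e2 := le_abs_self (w - c)
    rcases le_total 0 (w - c) with h6 | h6
    · rw [abs_of_nonneg h6] at *
      linarith
    · rw [abs_of_nonpos h6]; linarith

section

variable {Ω : Type*} [MeasurableSpace Ω] {μ : Measure Ω}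

theorem exists_functional {g : Ω → ℝ} (hg : Measurable g) (hb : ∀ ω, |g ω| ≤ 1) :
    ∃ Λ : (Lp ℝ 1 μ) →L[ℝ] ℝ, ∀ f : Lp ℝ 1 μ, Λ f = ∫ ω, f ω * g ω ∂μ := by
  have hint : ∀ f : Lp ℝ 1 μ, Integrable (fun ω => f ω * g ω) μ := fun f =>
    (L1.integrable_coeFn f).mul_bdd hg.aestronglyMeasurable
      (Eventually.of_forall fun ω => by rw [Real.norm_eq_abs]; exact hb ω)
  refine ⟨LinearMap.mkContinuous
    { toFun := fun f => ∫ ω, f ω * g ω ∂μ
      map_add' := fun f h => ?_
      map_smul' := fun a f => ?_ } 1 fun f => ?_, fun f => rfl⟩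
  · rw [← integral_add (hint f) (hint h)]
    refine integral_congr_ae ?_
    filter_upwards [Lp.coeFn_add f h] with ω hω
    rw [hω, Pi.add_apply]; ring
  · rw [RingHom.id_apply, smul_eq_mul, ← integral_const_mul]
    refine integral_congr_ae ?_
    filter_upwards [Lp.coeFn_smul a f] with ω hω
    rw [hω, Pi.smul_apply, smul_eq_mul]; ring
  · rw [one_mul, L1.norm_eq_integral_norm]
    refine (norm_integral_le_integral_norm _).trans ?_
    refine integral_mono (hint f).norm (L1.integrable_coeFn f).norm fun ω => ?_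
    show ‖f ω * g ω‖ ≤ ‖f ω‖
    rw [norm_mul]
    exact mul_le_of_le_one_right (norm_nonneg _) (by rw [Real.norm_eq_abs]; exact hb ω)

theorem dist_L1 (f h : Lp ℝ 1 μ) : dist f h = ∫ ω, |f ω - h ω| ∂μ := by
  rw [dist_eq_norm, L1.norm_eq_integral_norm]
  refine integral_congr_ae ?_
  filter_upwards [Lp.coeFn_sub f h] with ω hω
  rw [hω, Pi.sub_apply, Real.norm_eq_abs]

theorem integrable_abs_sub (f h : Lp ℝ 1 μ) : Integrable (fun ω => |f ω - h ω|) μ :=
  ((L1.integrable_coeFn f).sub (L1.integrable_coeFn h)).abs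

end

/-- scale pigeonhole -/
theorem scale_sum {B r : ℝ} (hB : 0 ≤ B) (hr : 0 ≤ r) (J : ℕ) :
    ∑ j ∈ Finset.range J, (2 : ℝ) ^ (j + 1) * (if r < B / 2 ^ (j + 1) then r else 0) ≤ 2 * B := by
  -- stronger statement under the last condition
  have geo : ∀ k : ℕ, ∑ j ∈ Finset.range k, (2 : ℝ) ^ (j + 1) ≤ 2 ^ (k + 1) := by
    intro k
    induction k with
    | zero => simp
    | succ k ih => rw [Finset.sum_range_succ]; rw [pow_succ 2 (k + 1)]; linarith
  induction J with
  | zero => simp; linarith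
  | succ J ih =>
    by_cases hlast : r < B / 2 ^ (J + 1)
    · have h1 : ∑ j ∈ Finset.range (J + 1), (2 : ℝ) ^ (j + 1)
          * (if r < B / 2 ^ (j + 1) then r else 0)
          ≤ ∑ j ∈ Finset.range (J + 1), (2 : ℝ) ^ (j + 1) * r := by
        refine Finset.sum_le_sum fun j _ => ?_
        split_ifs
        · exact le_refl _
        · have : (0 : ℝ) ≤ 2 ^ (j + 1) := by positivity
          nlinarith
      rw [← Finset.sum_mul] at h1
      have h2 := mul_le_mul_of_nonneg_right (geo (J + 1)) hr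
      have h3 : (2 : ℝ) ^ (J + 1 + 1) * r ≤ 2 * B := by
        rw [pow_succ]
        rw [lt_div_iff₀ (by positivity)] at hlast
        nlinarith
      linarith
    · rw [Finset.sum_range_succ, if_neg hlast, mul_zero, add_zero]
      exact ih

section

variable {Ω : Type*} [MeasurableSpace Ω] {μ : Measure Ω}

theorem exists_scale [IsFiniteMeasure μ] {r : Ω → ℝ} (hr : Integrable r μ) (hr0 : ∀ ω, 0 ≤ r ω)
    (hrm : Measurable r) {B : ℝ} (hB : 0 ≤ B) {J : ℕ} (hJ : 0 < J) :
    ∃ j < J, (2 : ℝ) ^ (j + 1) * ∫ ω, (if r ω < B / 2 ^ (j + 1) then r ω else 0) ∂μ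
      ≤ 2 * B * μ.real univ / J := by
  have hint : ∀ K : ℝ, Integrable (fun ω => if r ω < K then r ω else 0) μ := by
    intro K
    refine Integrable.mono' hr ?_ (Eventually.of_forall fun ω => ?_)
    · exact (Measurable.ite (measurableSet_lt hrm measurable_const) hrm
        measurable_const).aestronglyMeasurable
    · rw [Real.norm_eq_abs]
      split_ifs
      · rw [abs_of_nonneg (hr0 ω)]
      · rw [abs_zero]; exact hr0 ω
  by_contra hcon
  push Not at hcon
  have h1 : ∑ j ∈ Finset.range J, (2 : ℝ) ^ (j + 1)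
      * ∫ ω, (if r ω < B / 2 ^ (j + 1) then r ω else 0) ∂μ ≤ 2 * B * μ.real univ := by
    have e1 : ∑ j ∈ Finset.range J, (2 : ℝ) ^ (j + 1)
        * ∫ ω, (if r ω < B / 2 ^ (j + 1) then r ω else 0) ∂μ
        = ∫ ω, ∑ j ∈ Finset.range J, (2 : ℝ) ^ (j + 1)
          * (if r ω < B / 2 ^ (j + 1) then r ω else 0) ∂μ := by
      rw [integral_finsetSum _ fun j _ => (hint _).const_mul _]
      exact Finset.sum_congr rfl fun j _ => (integral_const_mul _ _).symm
    rw [e1]
    calc ∫ ω, ∑ j ∈ Finset.range J, (2 : ℝ) ^ (j + 1)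
          * (if r ω < B / 2 ^ (j + 1) then r ω else 0) ∂μ ≤ ∫ _ω, 2 * B ∂μ := by
          refine integral_mono (integrable_finsetSum _ fun j _ => (hint _).const_mul _)
            (integrable_const _) fun ω => scale_sum hB (hr0 ω) J
      _ = 2 * B * μ.real univ := by rw [integral_const, smul_eq_mul]; ring
  have h2 : ∑ _j ∈ Finset.range J, 2 * B * μ.real univ / J
      < ∑ j ∈ Finset.range J, (2 : ℝ) ^ (j + 1)
      * ∫ ω, (if r ω < B / 2 ^ (j + 1) then r ω else 0) ∂μ :=
    Finset.sum_lt_sum_of_nonempty ⟨0, Finset.mem_range.mpr hJ⟩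
      fun j hj => hcon j (Finset.mem_range.mp hj)
  rw [Finset.sum_const, Finset.card_range, nsmul_eq_mul, mul_div_cancel₀] at h2
  · linarith
  · exact_mod_cast hJ.ne'

theorem integral_comb {f1 f2 f3 f4 f5 f6 : Ω → ℝ} (h1 : Integrable f1 μ) (h2 : Integrable f2 μ)
    (h3 : Integrable f3 μ) (h4 : Integrable f4 μ) (h5 : Integrable f5 μ) (h6 : Integrable f6 μ) :
    ∫ ω, (f1 ω + 2 * f2 ω - f3 ω - 2 * f4 ω + 2 * f5 ω + 2 * f6 ω) ∂μ
      = ∫ ω, f1 ω ∂μ + 2 * ∫ ω, f2 ω ∂μ - ∫ ω, f3 ω ∂μ - 2 * ∫ ω, f4 ω ∂μ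
        + 2 * ∫ ω, f5 ω ∂μ + 2 * ∫ ω, f6 ω ∂μ := by
  have k2 := h2.const_mul 2
  have k4 := h4.const_mul 2
  have k5 := h5.const_mul 2
  have k6 := h6.const_mul 2
  have j12 : Integrable (fun ω => f1 ω + 2 * f2 ω) μ := h1.add k2
  have j123 : Integrable (fun ω => f1 ω + 2 * f2 ω - f3 ω) μ := j12.sub h3
  have j1234 : Integrable (fun ω => f1 ω + 2 * f2 ω - f3 ω - 2 * f4 ω) μ := j123.sub k4
  have j12345 : Integrable (fun ω => f1 ω + 2 * f2 ω - f3 ω - 2 * f4 ω + 2 * f5 ω) μ :=
    j1234.add k5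
  rw [integral_add j12345 k6, integral_add j1234 k5, integral_sub j123 k4, integral_sub j12 h3,
    integral_add h1 k2, integral_const_mul, integral_const_mul, integral_const_mul,
    integral_const_mul]

/-- integrated form of the pointwise inequality -/
theorem integrated_ineq (w x c p : Lp ℝ 1 μ) {K : ℝ} (hK : 0 ≤ K) :
    dist w p ≤ dist w c + 2 * dist w x - dist p c
      - 2 * ∫ ω, (x ω - p ω) * (if |p ω - c ω| < K then 0 else if c ω ≤ p ω then 1 else -1) ∂μ
      + 2 * ∫ ω, (if K < |w ω - c ω| then |w ω - c ω| else 0) ∂μ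
      + 2 * ∫ ω, (if |p ω - c ω| < K then |p ω - c ω| else 0) ∂μ := by
  have mw := (Lp.stronglyMeasurable w).measurable
  have mx := (Lp.stronglyMeasurable x).measurable
  have mc := (Lp.stronglyMeasurable c).measurable
  have mp := (Lp.stronglyMeasurable p).measurable
  have i1 := integrable_abs_sub (μ := μ) w c
  have i2 := integrable_abs_sub (μ := μ) w x
  have i3 := integrable_abs_sub (μ := μ) p c
  have i4 : Integrable (fun ω => (x ω - p ω) *
      (if |p ω - c ω| < K then 0 else if c ω ≤ p ω then 1 else -1)) μ := by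
    refine ((L1.integrable_coeFn x).sub (L1.integrable_coeFn p)).mul_bdd (c := 1) ?_
      (Eventually.of_forall fun ω => ?_)
    · exact (Measurable.ite (measurableSet_lt (mp.sub mc).abs measurable_const) measurable_const
        (Measurable.ite (measurableSet_le mc mp) measurable_const
          measurable_const)).aestronglyMeasurable
    · split_ifs <;> simp
  have i5 : Integrable (fun ω => if K < |w ω - c ω| then |w ω - c ω| else 0) μ := by
    refine Integrable.mono' i1 ?_ (Eventually.of_forall fun ω => ?_)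
    · exact (Measurable.ite (measurableSet_lt measurable_const (mw.sub mc).abs) (mw.sub mc).abs
        measurable_const).aestronglyMeasurable
    · split_ifs <;> simp
  have i6 : Integrable (fun ω => if |p ω - c ω| < K then |p ω - c ω| else 0) μ := by
    refine Integrable.mono' i3 ?_ (Eventually.of_forall fun ω => ?_)
    · exact (Measurable.ite (measurableSet_lt (mp.sub mc).abs measurable_const) (mp.sub mc).abs
        measurable_const).aestronglyMeasurable
    · split_ifs <;> simp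
  have hcomb := integral_comb i1 i2 i3 i4 i5 i6
  rw [dist_L1, dist_L1 w c, dist_L1 w x, dist_L1 p c, ← hcomb]
  refine integral_mono (integrable_abs_sub w p) ?_
    (fun ω => pointwise_ineq (w ω) (x ω) (c ω) (p ω) K hK)
  exact ((((i1.add (i2.const_mul 2)).sub i3).sub (i4.const_mul 2)).add (i5.const_mul 2)).add
    (i6.const_mul 2)

/-- The hypothesis on a set `C` in `L¹`: differences of elements of `C` are not concentrated. -/
def NotConc (μ : Measure Ω) (C : Set (Lp ℝ 1 μ)) (M δ : ℝ) : Prop :=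
  ∀ a ∈ C, ∀ b ∈ C, ∫ ω in {ω | M * ‖a - b‖ < |a ω - b ω|}, |a ω - b ω| ∂μ ≤ δ * ‖a - b‖

theorem propJ_L1 [IsFiniteMeasure μ] {C : Set (Lp ℝ 1 μ)} {M δ : ℝ} (hδ : δ < 1 / 2)
    (hC : NotConc μ C M δ) : ∃ (J : ℕ) (lam : ℝ), lam < 1 ∧ PropJ C (1 / 2) J lam := by
  set M' : ℝ := max M 1 with hM'
  set δ' : ℝ := max δ 0 with hδ'
  have hM'1 : 1 ≤ M' := le_max_right _ _
  have hδ'0 : 0 ≤ δ' := le_max_right _ _
  have hδ'1 : δ' < 1 / 2 := max_lt hδ (by norm_num)
  set θ : ℝ := 1 - 2 * δ' with hθ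
  have hθ0 : 0 < θ := by linarith
  have hθ1 : θ ≤ 1 := by linarith
  set B : ℝ := 2 * M' with hB
  have hB0 : 0 < B := by linarith
  have hm0 : 0 ≤ μ.real univ := measureReal_nonneg
  obtain ⟨J, hJ⟩ := exists_nat_gt (2 * B * μ.real univ / (θ / 8))
  have hJ0' : (0 : ℝ) < J := lt_of_le_of_lt (by positivity) hJ
  have hJ0 : 0 < J := by exact_mod_cast hJ0'
  have hJ' : 2 * B * μ.real univ / J < θ / 8 := by
    rw [div_lt_iff₀ (by positivity)] at hJ
    rw [div_lt_iff₀ hJ0']
    linarith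
  have hpJ : (0 : ℝ) < (1 / 2) ^ J := by positivity
  refine ⟨J, 1 - θ * (1 / 2) ^ J / 4, by nlinarith [mul_pos hθ0 hpJ], ?_⟩
  intro ρ x w p c hρ hxC hwC hpC hcC hweak hwx hwc
  by_contra hcon
  push Not at hcon
  obtain ⟨hcp, hw⟩ := hcon
  -- choice of the scale
  have mc := (Lp.stronglyMeasurable c).measurable
  have mp := (Lp.stronglyMeasurable p).measurable
  have ir : Integrable (fun ω => |p ω - c ω| / ρ) μ := (integrable_abs_sub p c).div_const ρ
  obtain ⟨j, hj, hsc⟩ := exists_scale ir (fun ω => by positivity)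
    ((mp.sub mc).abs.div_const ρ) hB0.le hJ0
  set τ : ℝ := (1 / 2) ^ (j + 1) with hτ
  have hτ0 : 0 < τ := by positivity
  have hτ2 : (2 : ℝ) ^ (j + 1) * τ = 1 := by
    rw [hτ, ← mul_pow]; norm_num
  have hτJ : (1 / 2 : ℝ) ^ J ≤ τ :=
    pow_le_pow_of_le_one (by norm_num) (by norm_num) hj
  have hτ1 : τ ≤ 1 := pow_le_one₀ (by norm_num) (by norm_num)
  set K : ℝ := B * τ * ρ with hK
  have hK0 : 0 ≤ K := by positivity
  have hsmall : 2 * ∫ ω, (if |p ω - c ω| < K then |p ω - c ω| else 0) ∂μ ≤ θ / 4 * τ * ρ := by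
    have e1 : ∀ ω, (if |p ω - c ω| / ρ < B / 2 ^ (j + 1) then |p ω - c ω| / ρ else 0)
        = (if |p ω - c ω| < K then |p ω - c ω| else 0) * ρ⁻¹ := by
      intro ω
      have e2 : B / 2 ^ (j + 1) = B * τ := by
        rw [div_eq_iff (by positivity), mul_assoc, mul_comm τ, hτ2, mul_one]
      have e3 : |p ω - c ω| / ρ < B / 2 ^ (j + 1) ↔ |p ω - c ω| < K := by
        rw [e2, div_lt_iff₀ hρ]
      by_cases h : |p ω - c ω| < K
      · rw [if_pos h, if_pos (e3.mpr h), div_eq_mul_inv]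
      · rw [if_neg h, if_neg (fun h' => h (e3.mp h')), zero_mul]
    simp only [e1] at hsc
    rw [integral_mul_const] at hsc
    set I : ℝ := ∫ ω, (if |p ω - c ω| < K then |p ω - c ω| else 0) ∂μ
    have e4 : 2 ^ (j + 1) * (I * ρ⁻¹) ≤ θ / 8 := hsc.trans hJ'.le
    have e5 : I * ρ⁻¹ ≤ θ / 8 * τ := by
      have := mul_le_mul_of_nonneg_right e4 hτ0.le
      calc I * ρ⁻¹ = 2 ^ (j + 1) * (I * ρ⁻¹) * τ := by
            rw [mul_comm (2 ^ (j + 1)) (I * ρ⁻¹), mul_assoc, hτ2, mul_one]
        _ ≤ _ := this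
    rw [mul_inv_le_iff₀ hρ] at e5
    linarith
  -- the functional
  have hgm : Measurable (fun ω => (if |p ω - c ω| < K then (0 : ℝ) else
      if c ω ≤ p ω then 1 else -1)) :=
    Measurable.ite (measurableSet_lt (mp.sub mc).abs measurable_const) measurable_const
      (Measurable.ite (measurableSet_le mc mp) measurable_const measurable_const)
  obtain ⟨Λ, hΛ⟩ := exists_functional (μ := μ) hgm (fun ω => by split_ifs <;> simp)
  have hΛx := hweak Λ
  -- tolerance
  set e : ℝ := θ * τ * ρ / 64 with he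
  have he0 : 0 < e := by positivity
  obtain ⟨η, hη, hfar⟩ := hw (j + 1) hj
  have hev1 : ∀ᶠ n in atTop, |Λ (x n) - Λ p| < e := by
    have := Metric.tendsto_nhds.mp hΛx e he0
    filter_upwards [this] with n hn
    rwa [Real.dist_eq] at hn
  obtain ⟨n, ⟨⟨hn1, hn2⟩, hn3⟩, hn4⟩ := ((((hwx (j + 1) hj e he0).and
    (hwc (j + 1) hj e he0)).and hev1).and hfar).exists
  have hmain := integrated_ineq (w (j + 1) n) (x n) c p hK0
  -- the term with `Λ`
  have hterm1 : |∫ ω, (x n ω - p ω) *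
      (if |p ω - c ω| < K then 0 else if c ω ≤ p ω then 1 else -1) ∂μ| < e := by
    have e1 : ∫ ω, (x n ω - p ω) *
      (if |p ω - c ω| < K then 0 else if c ω ≤ p ω then 1 else -1) ∂μ = Λ (x n) - Λ p := by
      rw [← map_sub, hΛ]
      refine integral_congr_ae ?_
      filter_upwards [Lp.coeFn_sub (x n) p] with ω hω
      rw [hω, Pi.sub_apply]
    rw [e1]; exact hn3
  -- the concentrated part
  have hterm2 : ∫ ω, (if K < |w (j + 1) n ω - c ω| then |w (j + 1) n ω - c ω| else 0) ∂μ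
      ≤ δ' * (τ * ρ + e) := by
    have mw := (Lp.stronglyMeasurable (w (j + 1) n)).measurable
    have e1 : ∫ ω, (if K < |w (j + 1) n ω - c ω| then |w (j + 1) n ω - c ω| else 0) ∂μ
        = ∫ ω in {ω | K < |w (j + 1) n ω - c ω|}, |w (j + 1) n ω - c ω| ∂μ := by
      have hms : MeasurableSet {ω | K < |w (j + 1) n ω - c ω|} :=
        measurableSet_lt measurable_const (mw.sub mc).abs
      rw [← integral_indicator hms]
      refine integral_congr_ae (Eventually.of_forall fun ω => ?_)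
      beta_reduce
      by_cases h : K < |w (j + 1) n ω - c ω|
      · rw [if_pos h, indicator_of_mem (show ω ∈ {ω | K < |w (j + 1) n ω - c ω|} from h)]
      · rw [if_neg h, indicator_of_notMem (show ω ∉ {ω | K < |w (j + 1) n ω - c ω|} from h)]
    have hnorm : ‖w (j + 1) n - c‖ ≤ τ * ρ + e := by rw [← dist_eq_norm]; exact hn2
    have e2 : M * ‖w (j + 1) n - c‖ ≤ K := by
      have h1 : M * ‖w (j + 1) n - c‖ ≤ M' * ‖w (j + 1) n - c‖ :=
        mul_le_mul_of_nonneg_right (le_max_left _ _) (norm_nonneg _)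
      have h2 : M' * ‖w (j + 1) n - c‖ ≤ M' * (2 * (τ * ρ)) := by
        refine mul_le_mul_of_nonneg_left (hnorm.trans ?_) (by linarith)
        have : θ * τ * ρ / 64 ≤ τ * ρ := by
          have h3 : 0 < τ * ρ := mul_pos hτ0 hρ
          nlinarith
        linarith
      calc M * ‖w (j + 1) n - c‖ ≤ _ := h1.trans h2
        _ = K := by rw [hK, hB]; ring
    rw [e1]
    calc ∫ ω in {ω | K < |w (j + 1) n ω - c ω|}, |w (j + 1) n ω - c ω| ∂μ
        ≤ ∫ ω in {ω | M * ‖w (j + 1) n - c‖ < |w (j + 1) n ω - c ω|},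
            |w (j + 1) n ω - c ω| ∂μ := by
          refine setIntegral_mono_set (integrable_abs_sub _ _).integrableOn
            (Eventually.of_forall fun ω => abs_nonneg _)
            (Eventually.of_forall fun ω (hω : K < _) => ?_)
          exact lt_of_le_of_lt e2 hω
      _ ≤ δ * ‖w (j + 1) n - c‖ := hC _ (hwC _ _) _ hcC
      _ ≤ δ' * ‖w (j + 1) n - c‖ :=
          mul_le_mul_of_nonneg_right (le_max_left _ _) (norm_nonneg _)
      _ ≤ δ' * (τ * ρ + e) := mul_le_mul_of_nonneg_left hnorm hδ'0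
  rw [dist_comm p c] at hmain
  have hterm1' := (abs_lt.mp hterm1).1
  have hJτ : θ * (1 / 2) ^ J / 4 * ρ ≤ θ * τ / 4 * ρ := by
    have := mul_le_mul_of_nonneg_left hτJ hθ0.le
    gcongr
  have hδe : δ' * e ≤ e / 2 := by nlinarith
  have hδθ : 2 * δ' * (τ * ρ) = τ * ρ - θ * τ * ρ := by rw [hθ]; ring
  have hlam : (1 - θ * (1 / 2) ^ J / 4) * ρ = ρ - θ * (1 / 2) ^ J / 4 * ρ := by ring
  rw [hlam] at hcp hn4
  have h64 : 64 * e = θ * τ * ρ := by rw [he]; ring
  have hexp : δ' * (τ * ρ + e) = δ' * (τ * ρ) + δ' * e := by ring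
  have hexp2 : (1 - (1 / 2 : ℝ) ^ (j + 1)) * ρ = ρ - τ * ρ := by rw [hτ]; ring
  rw [hexp] at hterm2
  rw [hexp2] at hn1
  have hθτ : 0 < θ * τ * ρ := by positivity
  linarith

end

end Pool.Agent.Lib.MP_011fc9_an
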